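import Pool.Agent.KS6_77.RC.Vec

/-!
# The base piece

The `(21_4)` configuration without two points and two lines: tables of the coordinates, and the
uniqueness of its realizations in which four given points form the standard frame.
-/

set_option autoImplicit false

namespace Pool.Agent.KS6_77.RC

open Pool.Agent.Results.MP_409c19_co.RigidConfiguration

/-- coordinates of the 19 points of the base piece -/
def BP : Fin 19 → Fin 3 → ℤ :=
  ![![3, 0, 1],
    ![-3, 0, 1],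
    ![0, 3, 1],
    ![0, -3, 1],
    ![1, -1, 1],
    ![-1, 1, 1],
    ![-1, -1, 1],
    ![1, 2, 1],
    ![1, -2, 1],
    ![-1, 2, 1],
    ![-1, -2, 1],
    ![2, 1, 1],
    ![2, -1, 1],
    ![-2, 1, 1],
    ![-2, -1, 1],
    ![1, 2, 0],
    ![1, -2, 0],
    ![2, 1, 0],
    ![2, -1, 0]]

/-- coordinates of the 19 lines of the base piece -/
def BL : Fin 19 → Fin 3 → ℤ :=
  ![![1, 0, -1],
    ![1, 0, 1],
    ![0, 1, -1],
    ![0, 1, 1],
    ![1, 1, -3],
    ![1, 1, 3],
    ![1, -1, 3],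
    ![1, -1, -3],
    ![2, -1, 0],
    ![2, 1, 0],
    ![1, -2, 0],
    ![1, 2, 0],
    ![1, 2, -3],
    ![1, -2, 3],
    ![2, 1, -3],
    ![2, 1, 3],
    ![2, -1, 3],
    ![2, -1, -3],
    ![0, 0, 1]]

/-- incidence in the base piece -/
def B (i k : Fin 19) : Prop := BP i 0 * BL k 0 + BP i 1 * BL k 1 + BP i 2 * BL k 2 = 0

instance (i k : Fin 19) : Decidable (B i k) := inferInstanceAs (Decidable (_ = _))

/-- the points of the base piece in the coordinates of the frame -/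
def TP : Fin 19 → Fin 3 → ℤ :=
  ![![12, 18, 12],
    ![-12, -6, -6],
    ![-6, 0, 3],
    ![6, 12, 3],
    ![6, 12, 6],
    ![-6, 0, 0],
    ![-2, 4, 0],
    ![0, 6, 6],
    ![8, 14, 6],
    ![-8, -2, 0],
    ![0, 6, 0],
    ![6, 12, 9],
    ![10, 16, 9],
    ![-10, -4, -3],
    ![-6, 0, -3],
    ![0, 0, 3],
    ![8, 8, 3],
    ![6, 6, 6],
    ![10, 10, 6]]

/-- the lines of the base piece in the coordinates of the frame -/
def TL : Fin 19 → Fin 3 → ℤ :=
  ![![-12, 12, -12],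
    ![0, 0, -12],
    ![0, 18, -24],
    ![12, 6, -24],
    ![-18, 36, -36],
    ![18, 0, -36],
    ![6, -24, 12],
    ![-30, 12, 12],
    ![-18, 0, 0],
    ![-6, 24, -48],
    ![-18, -18, 36],
    ![6, 30, -60],
    ![-12, 48, -60],
    ![0, -36, 36],
    ![-24, 42, -48],
    ![12, 6, -48],
    ![0, -18, 0],
    ![-36, 18, 0],
    ![6, -6, 0]]

theorem Ex.chain {p l : Fin 19 → E} (H : Ex B p l) (p5 : Pt p 5 1 0 0) (p10 : Pt p 10 0 1 0)
    (p15 : Pt p 15 0 0 1) (p17 : Pt p 17 1 1 1) :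
    (∀ i, Pt p i (TP i 0) (TP i 1) (TP i 2)) ∧ ∀ j, Pt l j (TL j 0) (TL j 1) (TL j 2) := by
  have l1 : Pt l 1 0 0 1 :=
    H.join (i := 5) (i' := 10) (j := 1) (k := 2) (g := 1) p5 p10 (by decide) (by decide) (by decide) (by decide) (by ring) (by ring) (by ring)
  have l8 : Pt l 8 1 0 0 :=
    H.join (i := 10) (i' := 15) (j := 8) (k := 1) (g := 1) p10 p15 (by decide) (by decide) (by decide) (by decide) (by ring) (by ring) (by ring)
  have l13 : Pt l 13 0 (-1) 1 :=
    H.join (i := 5) (i' := 17) (j := 13) (k := 1) (g := 1) p5 p17 (by decide) (by decide) (by decide) (by decide) (by ring) (by ring) (by ring)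
  have l16 : Pt l 16 0 (-1) 0 :=
    H.join (i := 5) (i' := 15) (j := 16) (k := 1) (g := 1) p5 p15 (by decide) (by decide) (by decide) (by decide) (by ring) (by ring) (by ring)
  have l18 : Pt l 18 (-1) 1 0 :=
    H.join (i := 15) (i' := 17) (j := 18) (k := 8) (g := 1) p15 p17 (by decide) (by decide) (by decide) (by decide) (by ring) (by ring) (by ring)
  have p7 : Pt p 7 0 (-1) (-1) :=
    H.swap.join (i := 8) (i' := 13) (j := 7) (k := 10) (g := 1) l8 l13 (by decide) (by decide) (by decide) (by decide) (by ring) (by ring) (by ring)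
  -- line 17 passes through point 15
  obtain ⟨x, l17⟩ : ∃ x, Pt l 17 1 (-x) 0 := by
    obtain ⟨c, hc, d0, d1, d2⟩ := p15
    have h1 := (H.inc 15 17).mpr (by decide)
    rw [d0, d1, d2] at h1
    have h2 : l 17 2 = 0 := by
      have : c * l 17 2 = 0 := by linarith
      exact (mul_eq_zero.mp this).resolve_left hc
    have h3 : l 17 0 ≠ 0 := by
      intro h
      obtain ⟨e, he, f0, f1, f2⟩ := l16
      refine H.swap.pp (i := 17) (i' := 16) (k := 3) (by decide) (by decide) ⟨?_, ?_, ?_⟩ <;>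
        simp only [f0, f1, f2, h, h2] <;> ring
    exact ⟨- (l 17 1 / l 17 0), l 17 0, h3, by ring, by field_simp, by rw [h2]; ring⟩
  -- point 14 lies on line 16
  obtain ⟨y, p14⟩ : ∃ y, Pt p 14 1 0 y := by
    obtain ⟨c, hc, d0, d1, d2⟩ := l16
    have h1 := (H.inc 14 16).mpr (by decide)
    rw [d0, d1, d2] at h1
    have h2 : p 14 1 = 0 := by
      have : p 14 1 * c = 0 := by linarith
      exact (mul_eq_zero.mp this).resolve_right hc
    have h3 : p 14 0 ≠ 0 := by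
      intro h
      obtain ⟨e, he, f0, f1, f2⟩ := p15
      refine H.pp (i := 14) (i' := 15) (k := 3) (by decide) (by decide) ⟨?_, ?_, ?_⟩ <;>
        simp only [f0, f1, f2, h, h2] <;> ring
    exact ⟨p 14 2 / p 14 0, p 14 0, h3, by ring, by rw [h2]; ring, by field_simp⟩
  have l5 : Pt l 5 y 0 (-1) :=
    H.join (i := 10) (i' := 14) (j := 5) (k := 1) (g := 1) p10 p14 (by decide) (by decide) (by decide) (by decide) (by ring) (by ring) (by ring)
  have l10 : Pt l 10 y (-y + 1) (-1) :=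
    H.join (i := 17) (i' := 14) (j := 10) (k := 13) (g := 1) p17 p14 (by decide) (by decide) (by decide) (by decide) (by ring) (by ring) (by ring)
  have p1 : Pt p 1 1 y y :=
    H.swap.join (i := 13) (i' := 5) (j := 1) (k := 5) (g := 1) l13 l5 (by decide) (by decide) (by decide) (by decide) (by ring) (by ring) (by ring)
  have p3 : Pt p 3 x 1 (x * y) :=
    H.swap.join (i := 17) (i' := 5) (j := 3) (k := 4) (g := 1) l17 l5 (by decide) (by decide) (by decide) (by decide) (by ring) (by ring) (by ring)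
  have p11 : Pt p 11 x 1 (x * y - y + 1) :=
    H.swap.join (i := 17) (i' := 10) (j := 11) (k := 3) (g := 1) l17 l10 (by decide) (by decide) (by decide) (by decide) (by ring) (by ring) (by ring)
  have l2 : Pt l 2 0 (-x * y + y - 1) 1 :=
    H.join (i := 5) (i' := 11) (j := 2) (k := 1) (g := 1) p5 p11 (by decide) (by decide) (by decide) (by decide) (by ring) (by ring) (by ring)
  have l4 : Pt l 4 (-x * y + y) (-x) x :=
    H.join (i := 7) (i' := 11) (j := 4) (k := 0) (g := 1) p7 p11 (by decide) (by decide) (by decide) (by decide) (by ring) (by ring) (by ring)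
  have p2 : Pt p 2 (-x) 0 (-x * y + y) :=
    H.swap.join (i := 16) (i' := 4) (j := 2) (k := 5) (g := 1) l16 l4 (by decide) (by decide) (by decide) (by decide) (by ring) (by ring) (by ring)
  have l6 : Pt l 6 (-x * y + y) (-1) x :=
    H.join (i := 1) (i' := 2) (j := 6) (k := 5) (g := y) p1 p2 (by decide) (by decide) (by decide) (by decide) (by ring) (by ring) (by ring)
  have p9 : Pt p 9 1 (-x * y + y) 0 :=
    H.swap.join (i := 1) (i' := 6) (j := 9) (k := 5) (g := 1) l1 l6 (by decide) (by decide) (by decide) (by decide) (by ring) (by ring) (by ring)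
  have p13 : Pt p 13 (-x * y - 1) (-y) (-x * y ^ 2 + y ^ 2 - y) :=
    H.swap.join (i := 2) (i' := 6) (j := 13) (k := 5) (g := (x - 1)) l2 l6 (by decide) (by decide) (by decide) (by decide) (by ring) (by ring) (by ring)
  have l15 : Pt l 15 (y ^ 2 - y) (-x * y ^ 2) 1 :=
    H.join (i := 3) (i' := 13) (j := 15) (k := 5) (g := 1) p3 p13 (by decide) (by decide) (by decide) (by decide) (by ring) (by ring) (by ring)
  have p6 : Pt p 6 (x * y) (y - 1) 0 :=
    H.swap.join (i := 1) (i' := 15) (j := 6) (k := 5) (g := y) l1 l15 (by decide) (by decide) (by decide) (by decide) (by ring) (by ring) (by ring)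
  have p16 : Pt p 16 1 1 (x * y ^ 2 - y ^ 2 + y) :=
    H.swap.join (i := 18) (i' := 15) (j := 16) (k := 15) (g := 1) l18 l15 (by decide) (by decide) (by decide) (by decide) (by ring) (by ring) (by ring)
  have l3 : Pt l 3 (-y ^ 2 + y) (x * y ^ 2) (y - 1) :=
    H.join (i := 14) (i' := 6) (j := 3) (k := 5) (g := 1) p14 p6 (by decide) (by decide) (by decide) (by decide) (by ring) (by ring) (by ring)
  have l9 : Pt l 9 (-x * y ^ 2 + y ^ 2) (-y) 1 :=
    H.join (i := 9) (i' := 16) (j := 9) (k := 1) (g := (x * y - y + 1)) p9 p16 (by decide) (by decide) (by decide) (by decide) (by ring) (by ring) (by ring)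
  have l14 : Pt l 14 (x * y - y) (x ^ 2 * y ^ 2 - x * y ^ 2 + y) (-x) :=
    H.join (i := 2) (i' := 16) (j := 14) (k := 4) (g := 1) p2 p16 (by decide) (by decide) (by decide) (by decide) (by ring) (by ring) (by ring)
  have p4 : Pt p 4 (-x * y + x) (-y + 1) (x * y) :=
    H.swap.join (i := 17) (i' := 3) (j := 4) (k := 3) (g := 1) l17 l3 (by decide) (by decide) (by decide) (by decide) (by ring) (by ring) (by ring)
  have p12 : Pt p 12 (-x ^ 2 * y ^ 2 + x * y ^ 2 - x * y - y + 1) (-y + 1) (-x ^ 2 * y ^ 3 + x * y ^ 3 - y ^ 2 + y) :=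
    H.swap.join (i := 3) (i' := 14) (j := 12) (k := 4) (g := y) l3 l14 (by decide) (by decide) (by decide) (by decide) (by ring) (by ring) (by ring)
  have l0 : Pt l 0 (-x * y - y + 1) (x * y - x) (-x * y + x) :=
    H.join (i := 7) (i' := 4) (j := 0) (k := 4) (g := 1) p7 p4 (by decide) (by decide) (by decide) (by decide) (by ring) (by ring) (by ring)
  have l7 : Pt l 7 (-x ^ 2 * y ^ 3 + x * y ^ 3 + x * y ^ 2 - x * y - y ^ 2 + y) (-x ^ 2 * y ^ 2) (x ^ 2 * y ^ 2 - x * y ^ 2 + x + y - 1) :=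
    H.join (i := 3) (i' := 12) (j := 7) (k := 5) (g := 1) p3 p12 (by decide) (by decide) (by decide) (by decide) (by ring) (by ring) (by ring)
  have l11 : Pt l 11 (x * y ^ 3 - 2 * y ^ 2 + y) (-x * y ^ 3 + x * y ^ 2 + y ^ 2) (-x * y ^ 2 + y - 1) :=
    H.join (i := 13) (i' := 12) (j := 11) (k := 2) (g := (x * y - y + 1)) p13 p12 (by decide) (by decide) (by decide) (by decide) (by ring) (by ring) (by ring)
  have p0 : Pt p 0 (x ^ 2 * y + x ^ 2 - x) (-x ^ 2 * y ^ 2 + x * y ^ 2 + x * y - y) (x ^ 2 * y - x * y) :=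
    H.swap.join (i := 4) (i' := 7) (j := 0) (k := 2) (g := (y - 1)) l4 l7 (by decide) (by decide) (by decide) (by decide) (by ring) (by ring) (by ring)
  have p8 : Pt p 8 (-x * y ^ 2 + 2 * x * y - x) (x ^ 2 * y ^ 3 - x ^ 2 * y ^ 2 - x * y ^ 3 + x * y ^ 2 + x * y + y - 1) (x ^ 2 * y ^ 3 - x ^ 2 * y ^ 2 - x * y ^ 3 + 2 * x * y ^ 2 + y ^ 2 - y) :=
    H.swap.join (i := 0) (i' := 9) (j := 8) (k := 4) (g := 1) l0 l9 (by decide) (by decide) (by decide) (by decide) (by ring) (by ring) (by ring)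
  have p18 : Pt p 18 (-x * y ^ 2 + y - 1) (-x * y ^ 2 + y - 1) (-x * y ^ 2 + y ^ 2 - y) :=
    H.swap.join (i := 18) (i' := 11) (j := 18) (k := 15) (g := 1) l18 l11 (by decide) (by decide) (by decide) (by decide) (by ring) (by ring) (by ring)
  have l12 : Pt l 12 (x * y ^ 2 - y ^ 2) y (-x * y ^ 2 + y - 1) :=
    H.join (i := 9) (i' := 18) (j := 12) (k := 1) (g := (x * y - y + 1)) p9 p18 (by decide) (by decide) (by decide) (by decide) (by ring) (by ring) (by ring)
  have ny : y ≠ 0 := by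
    intro h
    exact H.nonclosing p1 l1 (by decide) (by rw [h]; ring)
  have nx1 : x - 1 ≠ 0 := by
    intro h
    exact H.nonclosing p3 l18 (by decide) (by linear_combination (-1) * h)
  have nxy : x * y - 1 ≠ 0 := by
    intro h
    exact H.nonclosing p1 l17 (by decide) (by linear_combination (-1) * h)
  have hc1 := H.closing p0 l12 (by decide)
  have hxy : x = y := by
    have h : y * ((x - 1) * ((x * y - 1) * (x - y))) = 0 := by linear_combination hc1
    have := ((mul_eq_zero.mp h).resolve_left ny)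
    have := ((mul_eq_zero.mp this).resolve_left nx1)
    have := ((mul_eq_zero.mp this).resolve_left nxy)
    linarith
  subst hxy
  have hc2 := H.closing p8 l7 (by decide)
  have nx2 : x + 1 ≠ 0 := by
    intro h
    exact nxy (by linear_combination (x - 1) * h)
  have hx : x = 1 / 2 := by
    have h : x * ((x - 1) * ((x - 1) * ((x - 1) * ((x + 1) * (2 * x - 1))))) = 0 := by
      linear_combination hc2
    have := ((mul_eq_zero.mp h).resolve_left ny)
    have := ((mul_eq_zero.mp this).resolve_left nx1)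
    have := ((mul_eq_zero.mp this).resolve_left nx1)
    have := ((mul_eq_zero.mp this).resolve_left nx1)
    have := ((mul_eq_zero.mp this).resolve_left nx2)
    linarith
  subst hx
  constructor
  · intro i
    fin_cases i
    · show Pt p 0 ((12 : ℤ) : ℝ) ((18 : ℤ) : ℝ) ((12 : ℤ) : ℝ)
      exact p0.rescale (-1 / 96) (by norm_num) (by norm_num) (by norm_num) (by norm_num)
    · show Pt p 1 ((-12 : ℤ) : ℝ) ((-6 : ℤ) : ℝ) ((-6 : ℤ) : ℝ)
      exact p1.rescale (-1 / 12) (by norm_num) (by norm_num) (by norm_num) (by norm_num)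
    · show Pt p 2 ((-6 : ℤ) : ℝ) ((0 : ℤ) : ℝ) ((3 : ℤ) : ℝ)
      exact p2.rescale (1 / 12) (by norm_num) (by norm_num) (by norm_num) (by norm_num)
    · show Pt p 3 ((6 : ℤ) : ℝ) ((12 : ℤ) : ℝ) ((3 : ℤ) : ℝ)
      exact p3.rescale (1 / 12) (by norm_num) (by norm_num) (by norm_num) (by norm_num)
    · show Pt p 4 ((6 : ℤ) : ℝ) ((12 : ℤ) : ℝ) ((6 : ℤ) : ℝ)
      exact p4.rescale (1 / 24) (by norm_num) (by norm_num) (by norm_num) (by norm_num)
    · show Pt p 5 ((-6 : ℤ) : ℝ) ((0 : ℤ) : ℝ) ((0 : ℤ) : ℝ)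
      exact p5.rescale (-1 / 6) (by norm_num) (by norm_num) (by norm_num) (by norm_num)
    · show Pt p 6 ((-2 : ℤ) : ℝ) ((4 : ℤ) : ℝ) ((0 : ℤ) : ℝ)
      exact p6.rescale (-1 / 8) (by norm_num) (by norm_num) (by norm_num) (by norm_num)
    · show Pt p 7 ((0 : ℤ) : ℝ) ((6 : ℤ) : ℝ) ((6 : ℤ) : ℝ)
      exact p7.rescale (-1 / 6) (by norm_num) (by norm_num) (by norm_num) (by norm_num)
    · show Pt p 8 ((8 : ℤ) : ℝ) ((14 : ℤ) : ℝ) ((6 : ℤ) : ℝ)
      exact p8.rescale (-1 / 64) (by norm_num) (by norm_num) (by norm_num) (by norm_num)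
    · show Pt p 9 ((-8 : ℤ) : ℝ) ((-2 : ℤ) : ℝ) ((0 : ℤ) : ℝ)
      exact p9.rescale (-1 / 8) (by norm_num) (by norm_num) (by norm_num) (by norm_num)
    · show Pt p 10 ((0 : ℤ) : ℝ) ((6 : ℤ) : ℝ) ((0 : ℤ) : ℝ)
      exact p10.rescale (1 / 6) (by norm_num) (by norm_num) (by norm_num) (by norm_num)
    · show Pt p 11 ((6 : ℤ) : ℝ) ((12 : ℤ) : ℝ) ((9 : ℤ) : ℝ)
      exact p11.rescale (1 / 12) (by norm_num) (by norm_num) (by norm_num) (by norm_num)
    · show Pt p 12 ((10 : ℤ) : ℝ) ((16 : ℤ) : ℝ) ((9 : ℤ) : ℝ)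
      exact p12.rescale (1 / 32) (by norm_num) (by norm_num) (by norm_num) (by norm_num)
    · show Pt p 13 ((-10 : ℤ) : ℝ) ((-4 : ℤ) : ℝ) ((-3 : ℤ) : ℝ)
      exact p13.rescale (1 / 8) (by norm_num) (by norm_num) (by norm_num) (by norm_num)
    · show Pt p 14 ((-6 : ℤ) : ℝ) ((0 : ℤ) : ℝ) ((-3 : ℤ) : ℝ)
      exact p14.rescale (-1 / 6) (by norm_num) (by norm_num) (by norm_num) (by norm_num)
    · show Pt p 15 ((0 : ℤ) : ℝ) ((0 : ℤ) : ℝ) ((3 : ℤ) : ℝ)
      exact p15.rescale (1 / 3) (by norm_num) (by norm_num) (by norm_num) (by norm_num)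
    · show Pt p 16 ((8 : ℤ) : ℝ) ((8 : ℤ) : ℝ) ((3 : ℤ) : ℝ)
      exact p16.rescale (1 / 8) (by norm_num) (by norm_num) (by norm_num) (by norm_num)
    · show Pt p 17 ((6 : ℤ) : ℝ) ((6 : ℤ) : ℝ) ((6 : ℤ) : ℝ)
      exact p17.rescale (1 / 6) (by norm_num) (by norm_num) (by norm_num) (by norm_num)
    · show Pt p 18 ((10 : ℤ) : ℝ) ((10 : ℤ) : ℝ) ((6 : ℤ) : ℝ)
      exact p18.rescale (-1 / 16) (by norm_num) (by norm_num) (by norm_num) (by norm_num)
  · intro j
    fin_cases j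
    · show Pt l 0 ((-12 : ℤ) : ℝ) ((12 : ℤ) : ℝ) ((-12 : ℤ) : ℝ)
      exact l0.rescale (-1 / 48) (by norm_num) (by norm_num) (by norm_num) (by norm_num)
    · show Pt l 1 ((0 : ℤ) : ℝ) ((0 : ℤ) : ℝ) ((-12 : ℤ) : ℝ)
      exact l1.rescale (-1 / 12) (by norm_num) (by norm_num) (by norm_num) (by norm_num)
    · show Pt l 2 ((0 : ℤ) : ℝ) ((18 : ℤ) : ℝ) ((-24 : ℤ) : ℝ)
      exact l2.rescale (-1 / 24) (by norm_num) (by norm_num) (by norm_num) (by norm_num)
    · show Pt l 3 ((12 : ℤ) : ℝ) ((6 : ℤ) : ℝ) ((-24 : ℤ) : ℝ)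
      exact l3.rescale (1 / 48) (by norm_num) (by norm_num) (by norm_num) (by norm_num)
    · show Pt l 4 ((-18 : ℤ) : ℝ) ((36 : ℤ) : ℝ) ((-36 : ℤ) : ℝ)
      exact l4.rescale (-1 / 72) (by norm_num) (by norm_num) (by norm_num) (by norm_num)
    · show Pt l 5 ((18 : ℤ) : ℝ) ((0 : ℤ) : ℝ) ((-36 : ℤ) : ℝ)
      exact l5.rescale (1 / 36) (by norm_num) (by norm_num) (by norm_num) (by norm_num)
    · show Pt l 6 ((6 : ℤ) : ℝ) ((-24 : ℤ) : ℝ) ((12 : ℤ) : ℝ)
      exact l6.rescale (1 / 24) (by norm_num) (by norm_num) (by norm_num) (by norm_num)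
    · show Pt l 7 ((-30 : ℤ) : ℝ) ((12 : ℤ) : ℝ) ((12 : ℤ) : ℝ)
      exact l7.rescale (-1 / 192) (by norm_num) (by norm_num) (by norm_num) (by norm_num)
    · show Pt l 8 ((-18 : ℤ) : ℝ) ((0 : ℤ) : ℝ) ((0 : ℤ) : ℝ)
      exact l8.rescale (-1 / 18) (by norm_num) (by norm_num) (by norm_num) (by norm_num)
    · show Pt l 9 ((-6 : ℤ) : ℝ) ((24 : ℤ) : ℝ) ((-48 : ℤ) : ℝ)
      exact l9.rescale (-1 / 48) (by norm_num) (by norm_num) (by norm_num) (by norm_num)
    · show Pt l 10 ((-18 : ℤ) : ℝ) ((-18 : ℤ) : ℝ) ((36 : ℤ) : ℝ)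
      exact l10.rescale (-1 / 36) (by norm_num) (by norm_num) (by norm_num) (by norm_num)
    · show Pt l 11 ((6 : ℤ) : ℝ) ((30 : ℤ) : ℝ) ((-60 : ℤ) : ℝ)
      exact l11.rescale (1 / 96) (by norm_num) (by norm_num) (by norm_num) (by norm_num)
    · show Pt l 12 ((-12 : ℤ) : ℝ) ((48 : ℤ) : ℝ) ((-60 : ℤ) : ℝ)
      exact l12.rescale (1 / 96) (by norm_num) (by norm_num) (by norm_num) (by norm_num)
    · show Pt l 13 ((0 : ℤ) : ℝ) ((-36 : ℤ) : ℝ) ((36 : ℤ) : ℝ)
      exact l13.rescale (1 / 36) (by norm_num) (by norm_num) (by norm_num) (by norm_num)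
    · show Pt l 14 ((-24 : ℤ) : ℝ) ((42 : ℤ) : ℝ) ((-48 : ℤ) : ℝ)
      exact l14.rescale (1 / 96) (by norm_num) (by norm_num) (by norm_num) (by norm_num)
    · show Pt l 15 ((12 : ℤ) : ℝ) ((6 : ℤ) : ℝ) ((-48 : ℤ) : ℝ)
      exact l15.rescale (-1 / 48) (by norm_num) (by norm_num) (by norm_num) (by norm_num)
    · show Pt l 16 ((0 : ℤ) : ℝ) ((-18 : ℤ) : ℝ) ((0 : ℤ) : ℝ)
      exact l16.rescale (1 / 18) (by norm_num) (by norm_num) (by norm_num) (by norm_num)
    · show Pt l 17 ((-36 : ℤ) : ℝ) ((18 : ℤ) : ℝ) ((0 : ℤ) : ℝ)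
      exact l17.rescale (-1 / 36) (by norm_num) (by norm_num) (by norm_num) (by norm_num)
    · show Pt l 18 ((6 : ℤ) : ℝ) ((-6 : ℤ) : ℝ) ((0 : ℤ) : ℝ)
      exact l18.rescale (-1 / 6) (by norm_num) (by norm_num) (by norm_num) (by norm_num)

end Pool.Agent.KS6_77.RC
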