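import Pool.Agent.KS6_77.RC.Data

/-!
# The chain of pieces: the incidence structure and its standard realization
-/

set_option autoImplicit false

namespace Pool.Agent.KS6_77.RC

open Pool.Agent.Results.MP_409c19_co.RigidConfiguration

/-- the index set of the points, and of the lines, of the chain of `m` pieces -/
abbrev Idx (m : ℕ) : Type := (Fin m × Fin 19) ⊕ Fin 2

/-- the incidence relation of the chain (first argument: point, second argument: line) -/
def Inc (m : ℕ) : Idx m → Idx m → Prop
  | .inl a, .inl b => (b.1.val = a.1.val ∧ B a.2 b.2) ∨ (b.1.val + 1 = a.1.val ∧ Lk a.2 b.2)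
  | .inl a, .inr e => a.1.val = 0 ∧ X1 e a.2
  | .inr e, .inl b => b.1.val + 1 = m ∧ X2 e b.2
  | .inr _, .inr _ => False

/-- the points of the standard realization -/
def pz (m : ℕ) : Idx m → Fin 3 → ℤ
  | .inl a => mH^[a.1.val] (BP a.2)
  | .inr e => mH^[m - 1] (EP e)

/-- the lines of the standard realization -/
def lz (m : ℕ) : Idx m → Fin 3 → ℤ
  | .inl b => rA^[b.1.val] (BL b.2)
  | .inr e => EL e

theorem D_ne (n : ℕ) : (346608 : ℤ) ^ n ≠ 0 := pow_ne_zero _ (by norm_num)

theorem B_iff (i k : Fin 19) : dz (BL k) (BP i) = 0 ↔ B i k := by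
  unfold B dz
  constructor <;> intro h <;> linarith

theorem X_zero (e : Fin 2) (i : Fin 19) : dz (EL e) (BP i) = 0 ↔ X1 e i := Iff.rfl

theorem fne {u v : Fin 3 → ℤ} (h1 : dz u (mH v) ≠ 0) (h : ¬ (83 : ℤ) ∣ dz u (mH (mH v))) (t : ℕ)
    (ht : 1 ≤ t) : dz u (mH^[t] v) ≠ 0 := by
  rcases t with _ | t
  · omega
  rcases t with _ | t
  · simpa using h1
  · intro h0
    apply forward_ne u v h t
    rw [h0]
    exact dvd_zero _

theorem exact_z (m : ℕ) (hm : 1 ≤ m) (q r : Idx m) : dz (lz m r) (pz m q) = 0 ↔ Inc m q r := by
  rcases q with ⟨a, i⟩ | e <;> rcases r with ⟨b, k⟩ | e'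
  · show dz (rA^[b.val] (BL k)) (mH^[a.val] (BP i)) = 0 ↔
      (b.val = a.val ∧ B i k) ∨ (b.val + 1 = a.val ∧ Lk i k)
    rcases lt_trichotomy b.val a.val with h | h | h
    · obtain ⟨t, ht⟩ := Nat.exists_eq_add_of_le h.le
      have ht1 : 1 ≤ t := by omega
      rw [ht, dz_forward, mul_eq_zero]
      simp only [D_ne, false_or]
      rcases t with _ | t
      · omega
      rcases t with _ | t
      · constructor
        · intro h0
          exact Or.inr ⟨by omega, h0⟩
        · rintro (⟨h1, _⟩ | ⟨_, h2⟩)
          · omega
          · exact h2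
      · constructor
        · intro h0
          exfalso
          apply forward_ne _ _ (tab_f1 k i) t
          rw [h0]
          exact dvd_zero _
        · rintro (⟨h1, _⟩ | ⟨h2, _⟩) <;> omega
    · rw [h]
      have := dz_forward (BL k) (BP i) a.val 0
      rw [add_zero] at this
      rw [this, mul_eq_zero]
      simp only [D_ne, false_or]
      constructor
      · intro h0
        exact Or.inl ⟨trivial, (B_iff i k).1 h0⟩
      · rintro (⟨_, h2⟩ | ⟨h2, _⟩)
        · exact (B_iff i k).2 h2
        · omega
    · obtain ⟨s, hs⟩ := Nat.exists_eq_add_of_le h.le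
      rw [hs, dz_backward, mul_eq_zero]
      simp only [D_ne, false_or]
      rcases s with _ | s
      · omega
      constructor
      · intro h0
        exfalso
        apply backward_ne _ _ (tab_b1 k i) (tab_b2 k i) s
        rw [h0]
        exact dvd_zero _
      · rintro (⟨h1, _⟩ | ⟨h2, _⟩) <;> omega
  · show dz (EL e') (mH^[a.val] (BP i)) = 0 ↔ a.val = 0 ∧ X1 e' i
    rcases Nat.eq_zero_or_pos a.val with h | h
    · rw [h]
      simp [X1]
    · constructor
      · intro h0
        exact absurd h0 (fne (tab_t1a e' i) (tab_f2 e' i) _ h)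
      · rintro ⟨h1, _⟩
        omega
  · show dz (rA^[b.val] (BL k)) (mH^[m - 1] (EP e)) = 0 ↔ b.val + 1 = m ∧ X2 e k
    obtain ⟨t, ht⟩ := Nat.exists_eq_add_of_le (show b.val ≤ m - 1 by have := b.2; omega)
    rw [ht, dz_forward, mul_eq_zero]
    simp only [D_ne, false_or]
    rcases Nat.eq_zero_or_pos t with h | h
    · subst h
      constructor
      · intro h0
        exact ⟨by omega, h0⟩
      · rintro ⟨_, h0⟩
        exact h0
    · constructor
      · intro h0
        exact absurd h0 (fne (tab_t1b k e) (tab_f3 k e) _ h)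
      · rintro ⟨h1, _⟩
        omega
  · show dz (EL e') (mH^[m - 1] (EP e)) = 0 ↔ False
    rw [iff_false]
    rcases Nat.eq_zero_or_pos (m - 1) with h | h
    · rw [h]
      exact tab_t0 e' e
    · exact fne (tab_t1c e' e) (tab_f4 e' e) _ h

/-! ### Regularity -/

theorem deg1 : ∀ i : Fin 19, (Finset.univ.filter fun k => B i k).card +
    (Finset.univ.filter fun k => Lk i k).card = 4 := by decide +kernel

theorem deg2 : ∀ i : Fin 19, (Finset.univ.filter fun k => B i k).card +
    (Finset.univ.filter fun e => X1 e i).card = 4 := by decide +kernel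

theorem deg3 : ∀ k : Fin 19, (Finset.univ.filter fun i => B i k).card +
    (Finset.univ.filter fun i => Lk i k).card = 4 := by decide +kernel

theorem deg4 : ∀ k : Fin 19, (Finset.univ.filter fun i => B i k).card +
    (Finset.univ.filter fun e => X2 e k).card = 4 := by decide +kernel

theorem deg5 : ∀ e : Fin 2, (Finset.univ.filter fun i => X1 e i).card = 4 := by decide +kernel

theorem deg6 : ∀ e : Fin 2, (Finset.univ.filter fun k => X2 e k).card = 4 := by decide +kernel

theorem ncard_filter {α : Type} [Fintype α] (P : α → Prop) [DecidablePred P] :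
    {x | P x}.ncard = (Finset.univ.filter P).card := by
  rw [Set.ncard_eq_toFinset_card']
  congr 1
  ext x
  simp

theorem ncard_two {α β γ : Type} [Finite γ] {S : Set α} {T : Set β} {f : α → γ} {g : β → γ}
    (hf : Function.Injective f) (hg : Function.Injective g) (h : ∀ a b, f a ≠ g b) {n : ℕ}
    (hn : S.ncard + T.ncard = n) : (f '' S ∪ g '' T).ncard = n := by
  rw [Set.ncard_union_eq _ (Set.toFinite _) (Set.toFinite _), Set.ncard_image_of_injective _ hf,
    Set.ncard_image_of_injective _ hg, hn]
  rw [Set.disjoint_left]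
  rintro _ ⟨a, _, rfl⟩ ⟨b, _, e⟩
  exact h a b e.symm

theorem regular_point (m : ℕ) (hm : 1 ≤ m) (q : Idx m) : {r | Inc m q r}.ncard = 4 := by
  rcases q with ⟨a, i⟩ | e
  · rcases Nat.eq_zero_or_pos a.val with h | h
    · have e1 : {r | Inc m (.inl (a, i)) r} =
          (fun k => (.inl (a, k) : Idx m)) '' {k | B i k} ∪ (fun e => (.inr e : Idx m)) '' {e | X1 e i} := by
        ext r
        rcases r with ⟨b, k⟩ | e
        · simp only [Inc, Set.mem_ofPred_eq, Set.mem_union, Set.mem_image, Sum.inl.injEq,
            Prod.mk.injEq, reduceCtorEq, and_false, exists_false, or_false]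
          constructor
          · rintro (⟨h1, h2⟩ | ⟨h1, _⟩)
            · exact ⟨k, h2, Fin.ext h1.symm, rfl⟩
            · omega
          · rintro ⟨k', h1, rfl, rfl⟩
            exact Or.inl ⟨rfl, h1⟩
        · simp only [Inc, Set.mem_ofPred_eq, Set.mem_union, Set.mem_image, Sum.inr.injEq,
            reduceCtorEq, and_false, exists_false, false_or, exists_eq_right]
          exact ⟨fun h => h.2, fun h' => ⟨h, h'⟩⟩
      rw [e1]
      apply ncard_two
      · intro k k' hk
        simpa using hk
      · intro k k' hk
        simpa using hk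
      · intro k e
        simp
      · rw [ncard_filter, ncard_filter]
        exact deg2 i
    · have hb : a.val - 1 < m := by have := a.2; omega
      have e1 : {r | Inc m (.inl (a, i)) r} =
          (fun k => (.inl (a, k) : Idx m)) '' {k | B i k} ∪
            (fun k => (.inl ((⟨a.val - 1, hb⟩ : Fin m), k) : Idx m)) '' {k | Lk i k} := by
        ext r
        rcases r with ⟨b, k⟩ | e
        · simp only [Inc, Set.mem_ofPred_eq, Set.mem_union, Set.mem_image, Sum.inl.injEq,
            Prod.mk.injEq]
          constructor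
          · rintro (⟨h1, h2⟩ | ⟨h1, h2⟩)
            · exact Or.inl ⟨k, h2, Fin.ext h1.symm, rfl⟩
            · exact Or.inr ⟨k, h2, Fin.ext (by simp; omega), rfl⟩
          · rintro (⟨k', h1, rfl, rfl⟩ | ⟨k', h1, rfl, rfl⟩)
            · exact Or.inl ⟨rfl, h1⟩
            · exact Or.inr ⟨by simp; omega, h1⟩
        · simp only [Inc, Set.mem_ofPred_eq, Set.mem_union, Set.mem_image, reduceCtorEq, and_false,
            exists_false, or_self, iff_false]
          rintro ⟨h1, _⟩
          omega
      rw [e1]
      apply ncard_two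
      · intro k k' hk
        simpa using hk
      · intro k k' hk
        simpa using hk
      · intro k k' hk
        simp only [Sum.inl.injEq, Prod.mk.injEq, Fin.ext_iff] at hk
        omega
      · rw [ncard_filter, ncard_filter]
        exact deg1 i
  · have hb : m - 1 < m := by omega
    have e1 : {r | Inc m (.inr e) r} =
        (fun k => (.inl ((⟨m - 1, hb⟩ : Fin m), k) : Idx m)) '' {k | X2 e k} := by
      ext r
      rcases r with ⟨b, k⟩ | e
      · simp only [Inc, Set.mem_ofPred_eq, Set.mem_image, Sum.inl.injEq, Prod.mk.injEq]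
        constructor
        · rintro ⟨h1, h2⟩
          exact ⟨k, h2, Fin.ext (by simp; omega), rfl⟩
        · rintro ⟨k', h1, rfl, rfl⟩
          exact ⟨by simp; omega, h1⟩
      · simp [Inc]
    rw [e1, Set.ncard_image_of_injective _ (by intro k k' hk; simpa using hk), ncard_filter]
    exact deg6 e

theorem regular_line (m : ℕ) (hm : 1 ≤ m) (r : Idx m) : {q | Inc m q r}.ncard = 4 := by
  rcases r with ⟨b, k⟩ | e
  · by_cases h : b.val + 1 = m
    · have e1 : {q | Inc m q (.inl (b, k))} =
          (fun i => (.inl (b, i) : Idx m)) '' {i | B i k} ∪ (fun e => (.inr e : Idx m)) '' {e | X2 e k} := by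
        ext q
        rcases q with ⟨a, i⟩ | e
        · simp only [Inc, Set.mem_ofPred_eq, Set.mem_union, Set.mem_image, Sum.inl.injEq,
            Prod.mk.injEq, reduceCtorEq, and_false, exists_false, or_false]
          constructor
          · rintro (⟨h1, h2⟩ | ⟨h1, _⟩)
            · exact ⟨i, h2, Fin.ext h1, rfl⟩
            · have := a.2
              omega
          · rintro ⟨k', h1, rfl, rfl⟩
            exact Or.inl ⟨rfl, h1⟩
        · simp only [Inc, Set.mem_ofPred_eq, Set.mem_union, Set.mem_image, Sum.inr.injEq,
            reduceCtorEq, and_false, exists_false, false_or, exists_eq_right]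
          exact ⟨fun h => h.2, fun h' => ⟨h, h'⟩⟩
      rw [e1]
      apply ncard_two
      · intro k k' hk
        simpa using hk
      · intro k k' hk
        simpa using hk
      · intro k e
        simp
      · rw [ncard_filter, ncard_filter]
        exact deg4 k
    · have hb : b.val + 1 < m := by have := b.2; omega
      have e1 : {q | Inc m q (.inl (b, k))} =
          (fun i => (.inl (b, i) : Idx m)) '' {i | B i k} ∪
            (fun i => (.inl ((⟨b.val + 1, hb⟩ : Fin m), i) : Idx m)) '' {i | Lk i k} := by
        ext q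
        rcases q with ⟨a, i⟩ | e
        · simp only [Inc, Set.mem_ofPred_eq, Set.mem_union, Set.mem_image, Sum.inl.injEq,
            Prod.mk.injEq]
          constructor
          · rintro (⟨h1, h2⟩ | ⟨h1, h2⟩)
            · exact Or.inl ⟨i, h2, Fin.ext h1, rfl⟩
            · exact Or.inr ⟨i, h2, Fin.ext (by simp; omega), rfl⟩
          · rintro (⟨k', h1, rfl, rfl⟩ | ⟨k', h1, rfl, rfl⟩)
            · exact Or.inl ⟨rfl, h1⟩
            · exact Or.inr ⟨by simp, h1⟩
        · simp only [Inc, Set.mem_ofPred_eq, Set.mem_union, Set.mem_image, reduceCtorEq, and_false,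
            exists_false, or_self, iff_false]
          rintro ⟨h1, _⟩
          omega
      rw [e1]
      apply ncard_two
      · intro k k' hk
        simpa using hk
      · intro k k' hk
        simpa using hk
      · intro k k' hk
        simp only [Sum.inl.injEq, Prod.mk.injEq, Fin.ext_iff] at hk
        omega
      · rw [ncard_filter, ncard_filter]
        exact deg3 k
  · have hb : 0 < m := by omega
    have e1 : {q | Inc m q (.inr e)} =
        (fun i => (.inl ((⟨0, hb⟩ : Fin m), i) : Idx m)) '' {i | X1 e i} := by
      ext q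
      rcases q with ⟨a, i⟩ | e
      · simp only [Inc, Set.mem_ofPred_eq, Set.mem_image, Sum.inl.injEq, Prod.mk.injEq]
        constructor
        · rintro ⟨h1, h2⟩
          exact ⟨i, h2, Fin.ext (by simp; omega), rfl⟩
        · rintro ⟨k', h1, rfl, rfl⟩
          exact ⟨rfl, h1⟩
      · simp [Inc]
    rw [e1, Set.ncard_image_of_injective _ (by intro k k' hk; simpa using hk), ncard_filter]
    exact deg5 e

end Pool.Agent.KS6_77.RC
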