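import Pool.Agent.KS6_77.RC.Piece

/-!
# The chain of pieces: incidences

The incidences between the pieces at distance at least two are excluded by congruences: modulo
`83` the matrix `H` satisfies `H³ = τ H²`, and modulo `29` its adjugate `A` satisfies
`A³ = ε A²`, with `τ` and `ε` invertible.
-/

set_option autoImplicit false

namespace Pool.Agent.KS6_77.RC

/-- the two remaining points of the `(21_4)` configuration -/
def EP : Fin 2 → Fin 3 → ℤ := ![![0, 0, 1], ![1, 1, 1]]

/-- the two remaining lines of the `(21_4)` configuration -/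
def EL : Fin 2 → Fin 3 → ℤ := ![![1, 2, 3], ![1, -2, -3]]

/-- the adjugate of `HZ` -/
def AZ : Fin 3 → Fin 3 → ℤ :=
  ![![-13680, -21636, 35928], ![-588, -1158, -432], ![-2200, -7280, 11352]]

def dz (u v : Fin 3 → ℤ) : ℤ := u 0 * v 0 + u 1 * v 1 + u 2 * v 2

def mH (v : Fin 3 → ℤ) : Fin 3 → ℤ :=
  fun r => HZ r 0 * v 0 + HZ r 1 * v 1 + HZ r 2 * v 2

def mA (v : Fin 3 → ℤ) : Fin 3 → ℤ :=
  fun r => AZ r 0 * v 0 + AZ r 1 * v 1 + AZ r 2 * v 2

def rA (u : Fin 3 → ℤ) : Fin 3 → ℤ :=
  fun c => u 0 * AZ 0 c + u 1 * AZ 1 c + u 2 * AZ 2 c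

theorem dz_rA (u v : Fin 3 → ℤ) : dz (rA u) v = dz u (mA v) := by
  simp only [dz, rA, mA]
  ring

theorem mA_mH (v : Fin 3 → ℤ) : mA (mH v) = fun k => 346608 * v k := by
  ext k
  fin_cases k <;> simp [mA, mH, AZ, HZ] <;> ring

theorem dz_mul (u v : Fin 3 → ℤ) (c : ℤ) : dz u (fun k => c * v k) = c * dz u v := by
  simp only [dz]
  ring

theorem dz_step (u v : Fin 3 → ℤ) : dz (rA u) (mH v) = 346608 * dz u v := by
  rw [dz_rA, mA_mH, dz_mul]

theorem dz_forward (u v : Fin 3 → ℤ) (a t : ℕ) :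
    dz (rA^[a] u) (mH^[a + t] v) = 346608 ^ a * dz u (mH^[t] v) := by
  induction a with
  | zero => simp
  | succ a ih =>
    rw [Function.iterate_succ_apply', show a + 1 + t = (a + t) + 1 by ring,
      Function.iterate_succ_apply', dz_step, ih]
    ring

theorem dz_iter (u v : Fin 3 → ℤ) (s : ℕ) : dz (rA^[s] u) v = dz u (mA^[s] v) := by
  induction s generalizing v with
  | zero => rfl
  | succ s ih =>
    rw [Function.iterate_succ_apply', dz_rA, ih, Function.iterate_succ_apply]

theorem dz_backward (u v : Fin 3 → ℤ) (b s : ℕ) :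
    dz (rA^[b + s] u) (mH^[b] v) = 346608 ^ b * dz u (mA^[s] v) := by
  induction b with
  | zero => simp [dz_iter]
  | succ b ih =>
    rw [show b + 1 + s = (b + s) + 1 by ring, Function.iterate_succ_apply',
      Function.iterate_succ_apply', dz_step, ih]
    ring

theorem cayley_H (v : Fin 3 → ℤ) : mH (mH (mH v)) =
    fun k => -258 * mH (mH v) k + 83 * (42 * mH v k + 4176 * v k) := by
  ext k
  fin_cases k <;> simp [mH, HZ] <;> ring

theorem cayley_A (v : Fin 3 → ℤ) : mA (mA (mA v)) =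
    fun k => -3486 * mA (mA v) k + 29 * (258 * 11952 * mA v k + 11952 * 346608 * v k) := by
  ext k
  fin_cases k <;> simp [mA, AZ] <;> ring

theorem forward_ne (u v : Fin 3 → ℤ) (h : ¬ (83 : ℤ) ∣ dz u (mH (mH v))) (t : ℕ) :
    ¬ (83 : ℤ) ∣ dz u (mH^[t + 2] v) := by
  induction t with
  | zero => exact h
  | succ t ih =>
    intro h2
    apply ih
    rw [show t + 1 + 2 = ((t + 1) + 1) + 1 by ring, Function.iterate_succ_apply',
      Function.iterate_succ_apply', Function.iterate_succ_apply'] at h2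
    rw [show t + 2 = (t + 1) + 1 by ring, Function.iterate_succ_apply',
      Function.iterate_succ_apply']
    set w := mH^[t] v with hw
    have e : dz u (mH (mH (mH w))) = -258 * dz u (mH (mH w))
        + 83 * (42 * dz u (mH w) + 4176 * dz u w) := by
      rw [cayley_H]
      simp only [dz]
      ring
    rw [e] at h2
    have h3 : (83 : ℤ) ∣ -258 * dz u (mH (mH w)) := (Int.dvd_add_left (Dvd.intro _ rfl)).1 h2
    exact IsCoprime.dvd_of_dvd_mul_left (by norm_num : IsCoprime (83 : ℤ) (-258)) h3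

theorem backward_ne (u v : Fin 3 → ℤ) (h1 : ¬ (29 : ℤ) ∣ dz u (mA v))
    (h : ¬ (29 : ℤ) ∣ dz u (mA (mA v))) (t : ℕ) : ¬ (29 : ℤ) ∣ dz u (mA^[t + 1] v) := by
  have key : ∀ t : ℕ, ¬ (29 : ℤ) ∣ dz u (mA^[t + 2] v) := by
    intro t
    induction t with
    | zero => exact h
    | succ t ih =>
      intro h2
      apply ih
      rw [show t + 1 + 2 = ((t + 1) + 1) + 1 by ring, Function.iterate_succ_apply',
        Function.iterate_succ_apply', Function.iterate_succ_apply'] at h2
      rw [show t + 2 = (t + 1) + 1 by ring, Function.iterate_succ_apply',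
        Function.iterate_succ_apply']
      set w := mA^[t] v with hw
      have e : dz u (mA (mA (mA w))) = -3486 * dz u (mA (mA w))
          + 29 * (258 * 11952 * dz u (mA w) + 11952 * 346608 * dz u w) := by
        rw [cayley_A]
        simp only [dz]
        ring
      rw [e] at h2
      have h3 : (29 : ℤ) ∣ -3486 * dz u (mA (mA w)) :=
        (Int.dvd_add_left (Dvd.intro _ rfl)).1 h2
      exact IsCoprime.dvd_of_dvd_mul_left (by norm_num : IsCoprime (29 : ℤ) (-3486)) h3
  rcases t with _ | t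
  · exact h1
  · exact key t

/-- the incidences between consecutive pieces -/
def Lk (i k : Fin 19) : Prop := dz (BL k) (mH (BP i)) = 0

instance (i k : Fin 19) : Decidable (Lk i k) := inferInstanceAs (Decidable (_ = _))

/-- the incidences with the remaining lines -/
def X1 (e : Fin 2) (i : Fin 19) : Prop := dz (EL e) (BP i) = 0

instance (e : Fin 2) (i : Fin 19) : Decidable (X1 e i) := inferInstanceAs (Decidable (_ = _))

/-- the incidences with the remaining points -/
def X2 (e : Fin 2) (k : Fin 19) : Prop := dz (BL k) (EP e) = 0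

instance (e : Fin 2) (k : Fin 19) : Decidable (X2 e k) := inferInstanceAs (Decidable (_ = _))

set_option maxRecDepth 100000

theorem tab_t0 : ∀ e e' : Fin 2, dz (EL e) (EP e') ≠ 0 := by decide

theorem tab_t1a : ∀ (e : Fin 2) (i : Fin 19), dz (EL e) (mH (BP i)) ≠ 0 := by decide

theorem tab_t1b : ∀ (k : Fin 19) (e : Fin 2), dz (BL k) (mH (EP e)) ≠ 0 := by decide

theorem tab_t1c : ∀ e e' : Fin 2, dz (EL e) (mH (EP e')) ≠ 0 := by decide

theorem tab_f1 : ∀ k i : Fin 19, ¬ (83 : ℤ) ∣ dz (BL k) (mH (mH (BP i))) := by decide +kernel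

theorem tab_f2 : ∀ (e : Fin 2) (i : Fin 19), ¬ (83 : ℤ) ∣ dz (EL e) (mH (mH (BP i))) := by
  decide +kernel

theorem tab_f3 : ∀ (k : Fin 19) (e : Fin 2), ¬ (83 : ℤ) ∣ dz (BL k) (mH (mH (EP e))) := by
  decide +kernel

theorem tab_f4 : ∀ e e' : Fin 2, ¬ (83 : ℤ) ∣ dz (EL e) (mH (mH (EP e'))) := by decide +kernel

theorem tab_b1 : ∀ k i : Fin 19, ¬ (29 : ℤ) ∣ dz (BL k) (mA (BP i)) := by decide +kernel

theorem tab_b2 : ∀ k i : Fin 19, ¬ (29 : ℤ) ∣ dz (BL k) (mA (mA (BP i))) := by decide +kernel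

end Pool.Agent.KS6_77.RC
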