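import Pool.Agent.KS6_77.RC.Base

/-!
# The base piece is rigid

Every exact realization of the incidence relation of the base piece is the image of the standard
one under an invertible matrix.
-/

set_option autoImplicit false

namespace Pool.Agent.KS6_77.RC

open Pool.Agent.Results.MP_409c19_co.RigidConfiguration
open Matrix

/-- the scalar product -/
def dt (v w : E) : ℝ := v 0 * w 0 + v 1 * w 1 + v 2 * w 2

/-- the vectors differ by a nonzero factor -/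
def Sim (v w : E) : Prop := ∃ c : ℝ, c ≠ 0 ∧ v = c • w

theorem Sim.symm {v w : E} (h : Sim v w) : Sim w v := by
  obtain ⟨c, hc, e⟩ := h
  exact ⟨c⁻¹, inv_ne_zero hc, by rw [e, smul_smul, inv_mul_cancel₀ hc, one_smul]⟩

theorem Sim.trans {u v w : E} (h : Sim u v) (h' : Sim v w) : Sim u w := by
  obtain ⟨c, hc, e⟩ := h
  obtain ⟨d, hd, f⟩ := h'
  exact ⟨c * d, mul_ne_zero hc hd, by rw [e, f, smul_smul]⟩

theorem Sim.refl (v : E) : Sim v v := ⟨1, one_ne_zero, (one_smul _ _).symm⟩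

theorem Sim.mulVec {v w : E} (h : Sim v w) (M : Matrix (Fin 3) (Fin 3) ℝ) :
    Sim (M *ᵥ v) (M *ᵥ w) := by
  obtain ⟨c, hc, e⟩ := h
  exact ⟨c, hc, by rw [e, mulVec_smul]⟩

theorem Sim.vecMul {v w : E} (h : Sim v w) (M : Matrix (Fin 3) (Fin 3) ℝ) :
    Sim (v ᵥ* M) (w ᵥ* M) := by
  obtain ⟨c, hc, e⟩ := h
  exact ⟨c, hc, by rw [e, smul_vecMul]⟩

theorem pt_iff {ι : Type} {p : ι → E} {i : ι} {v0 v1 v2 : ℝ} :
    Pt p i v0 v1 v2 ↔ Sim (p i) ![v0, v1, v2] := by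
  constructor
  · rintro ⟨c, hc, a0, a1, a2⟩
    refine ⟨c, hc, ?_⟩
    ext k
    fin_cases k
    · simpa using a0
    · simpa using a1
    · simpa using a2
  · rintro ⟨c, hc, e⟩
    refine ⟨c, hc, ?_, ?_, ?_⟩ <;> rw [e] <;> simp

theorem pt_iff' {ι : Type} {p : ι → E} {i : ι} {v : E} :
    Pt p i (v 0) (v 1) (v 2) ↔ Sim (p i) v := by
  rw [pt_iff]
  have : (![v 0, v 1, v 2] : E) = v := by
    ext k
    fin_cases k <;> rfl
  rw [this]

theorem dt_eq (v w : E) : dt v w = w ⬝ᵥ v := by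
  simp [dt, dotProduct, Fin.sum_univ_three]
  ring

theorem dt_mulVec (M : Matrix (Fin 3) (Fin 3) ℝ) (v w : E) : dt (M *ᵥ v) w = dt v (w ᵥ* M) := by
  rw [dt_eq, dt_eq, dotProduct_mulVec]

theorem ne_iff (v : E) : ¬ (v 0 = 0 ∧ v 1 = 0 ∧ v 2 = 0) ↔ v ≠ 0 := by
  rw [not_iff_not]
  constructor
  · rintro ⟨h0, h1, h2⟩
    ext k
    fin_cases k
    · exact h0
    · exact h1
    · exact h2
  · intro h
    rw [h]
    exact ⟨rfl, rfl, rfl⟩

variable {ι κ : Type} {R : ι → κ → Prop} {p : ι → E} {l : κ → E}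

theorem Ex.inc' (H : Ex R p l) (i : ι) (j : κ) : dt (p i) (l j) = 0 ↔ R i j := H.inc i j

theorem inv_mulVec {M : Matrix (Fin 3) (Fin 3) ℝ} (hM : M.det ≠ 0) (v : E) :
    M *ᵥ (M⁻¹ *ᵥ v) = v := by
  rw [mulVec_mulVec, mul_nonsing_inv _ (isUnit_iff_ne_zero.mpr hM), one_mulVec]

theorem mulVec_inv {M : Matrix (Fin 3) (Fin 3) ℝ} (hM : M.det ≠ 0) (v : E) :
    M⁻¹ *ᵥ (M *ᵥ v) = v := by
  rw [mulVec_mulVec, nonsing_inv_mul _ (isUnit_iff_ne_zero.mpr hM), one_mulVec]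

theorem vecMul_ne {M : Matrix (Fin 3) (Fin 3) ℝ} (hM : M.det ≠ 0) {v : E} (hv : v ≠ 0) :
    v ᵥ* M ≠ 0 := by
  intro h
  apply hv
  have : (v ᵥ* M) ᵥ* M⁻¹ = v := by
    rw [vecMul_vecMul, mul_nonsing_inv _ (isUnit_iff_ne_zero.mpr hM), vecMul_one]
  rw [← this, h, zero_vecMul]

theorem Ex.move (H : Ex R p l) {M : Matrix (Fin 3) (Fin 3) ℝ} (hM : M.det ≠ 0) :
    Ex R (fun i => M⁻¹ *ᵥ p i) (fun j => l j ᵥ* M) := by
  refine ⟨fun i => ?_, fun j => ?_, fun i j => ?_⟩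
  · rw [ne_iff]
    intro h
    apply (ne_iff _).1 (H.pne i)
    rw [← inv_mulVec hM (p i), h, mulVec_zero]
  · rw [ne_iff]
    exact vecMul_ne hM ((ne_iff _).1 (H.lne j))
  · rw [← H.inc' i j]
    have := dt_mulVec M (M⁻¹ *ᵥ p i) (l j)
    rw [inv_mulVec hM] at this
    rw [this]
    rfl

/-- The standard frame: four points, three lines joining pairs of them. -/
theorem Ex.frame (H : Ex R p l) {a b c d : ι} {j1 j2 j3 : κ} (h1a : R a j1) (h1b : R b j1)
    (h1c : ¬ R c j1) (h1d : ¬ R d j1) (h2b : R b j2) (h2c : R c j2) (h2a : ¬ R a j2)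
    (h2d : ¬ R d j2)
    (h3a : R a j3) (h3c : R c j3) (h3d : ¬ R d j3) :
    ∃ M : Matrix (Fin 3) (Fin 3) ℝ, M.det ≠ 0 ∧
      Pt (fun i => M⁻¹ *ᵥ p i) a 1 0 0 ∧ Pt (fun i => M⁻¹ *ᵥ p i) b 0 1 0 ∧
      Pt (fun i => M⁻¹ *ᵥ p i) c 0 0 1 ∧ Pt (fun i => M⁻¹ *ᵥ p i) d 1 1 1 := by
  -- lines as cross products
  have L1 := H.join (i := a) (i' := b) (j := j1) (k := j3) (g := 1) (Pt.self a) (Pt.self b)
    h3a (by
      intro h
      have L := H.join (i := b) (i' := c) (j := j3) (k := j1) (g := 1) (Pt.self b) (Pt.self c)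
        h1b h1c h h3c (m0 := p b 1 * p c 2 - p b 2 * p c 1)
        (m1 := p b 2 * p c 0 - p b 0 * p c 2) (m2 := p b 0 * p c 1 - p b 1 * p c 0)
        (by ring) (by ring) (by ring)
      have L' := H.join (i := b) (i' := c) (j := j2) (k := j1) (g := 1) (Pt.self b) (Pt.self c)
        h1b h1c h2b h2c (m0 := p b 1 * p c 2 - p b 2 * p c 1)
        (m1 := p b 2 * p c 0 - p b 0 * p c 2) (m2 := p b 0 * p c 1 - p b 1 * p c 0)
        (by ring) (by ring) (by ring)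
      have e := H.closing (Pt.self a) L h3a
      exact H.nonclosing (Pt.self a) L' h2a e) h1a h1b
    (m0 := p a 1 * p b 2 - p a 2 * p b 1)
    (m1 := p a 2 * p b 0 - p a 0 * p b 2) (m2 := p a 0 * p b 1 - p a 1 * p b 0)
    (by ring) (by ring) (by ring)
  have L2 := H.join (i := b) (i' := c) (j := j2) (k := j1) (g := 1) (Pt.self b) (Pt.self c)
        h1b h1c h2b h2c (m0 := p b 1 * p c 2 - p b 2 * p c 1)
        (m1 := p b 2 * p c 0 - p b 0 * p c 2) (m2 := p b 0 * p c 1 - p b 1 * p c 0)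
        (by ring) (by ring) (by ring)
  have L3 := H.join (i := a) (i' := c) (j := j3) (k := j1) (g := 1) (Pt.self a) (Pt.self c)
        h1a h1c h3a h3c (m0 := p a 1 * p c 2 - p a 2 * p c 1)
        (m1 := p a 2 * p c 0 - p a 0 * p c 2) (m2 := p a 0 * p c 1 - p a 1 * p c 0)
        (by ring) (by ring) (by ring)
  have hD := H.nonclosing (Pt.self c) L1 h1c
  have hγ := H.nonclosing (Pt.self d) L1 h1d
  have hα := H.nonclosing (Pt.self d) L2 h2d
  have hβ := H.nonclosing (Pt.self d) L3 h3d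
  set D := p c 0 * (p a 1 * p b 2 - p a 2 * p b 1) + p c 1 * (p a 2 * p b 0 - p a 0 * p b 2) +
    p c 2 * (p a 0 * p b 1 - p a 1 * p b 0) with hDd
  set γ := p d 0 * (p a 1 * p b 2 - p a 2 * p b 1) + p d 1 * (p a 2 * p b 0 - p a 0 * p b 2) +
    p d 2 * (p a 0 * p b 1 - p a 1 * p b 0) with hγd
  set α := p d 0 * (p b 1 * p c 2 - p b 2 * p c 1) + p d 1 * (p b 2 * p c 0 - p b 0 * p c 2) +
    p d 2 * (p b 0 * p c 1 - p b 1 * p c 0) with hαd
  set β := p d 0 * (p a 1 * p c 2 - p a 2 * p c 1) + p d 1 * (p a 2 * p c 0 - p a 0 * p c 2) +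
    p d 2 * (p a 0 * p c 1 - p a 1 * p c 0) with hβd
  let M : Matrix (Fin 3) (Fin 3) ℝ := !![α * p a 0, -β * p b 0, γ * p c 0;
    α * p a 1, -β * p b 1, γ * p c 1; α * p a 2, -β * p b 2, γ * p c 2]
  have hdet : M.det = -(α * β * γ * D) := by
    simp only [M, det_fin_three, of_apply, cons_val', cons_val_zero, cons_val_one, cons_val_two,
      cons_val_fin_one, head_cons, tail_cons, head_fin_const]
    rw [hDd]
    simp
    ring
  have hM : M.det ≠ 0 := by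
    rw [hdet]
    exact neg_ne_zero.mpr (mul_ne_zero (mul_ne_zero (mul_ne_zero hα hβ) hγ) hD)
  have key : ∀ (i : ι) (v : E) (r : ℝ), r ≠ 0 → M *ᵥ v = r • p i →
      Pt (fun i => M⁻¹ *ᵥ p i) i (v 0) (v 1) (v 2) := by
    intro i v r hr h
    rw [pt_iff']
    refine ⟨r⁻¹, inv_ne_zero hr, ?_⟩
    have : M⁻¹ *ᵥ (M *ᵥ v) = r • (M⁻¹ *ᵥ p i) := by rw [h, mulVec_smul]
    rw [mulVec_inv hM] at this
    rw [this, smul_smul, inv_mul_cancel₀ hr, one_smul]
  refine ⟨M, hM, ?_, ?_, ?_, ?_⟩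
  · have := key a ![1, 0, 0] α hα (by
      ext k
      fin_cases k <;> simp [M, mulVec, dotProduct, Fin.sum_univ_three])
    simpa using this
  · have := key b ![0, 1, 0] (-β) (neg_ne_zero.mpr hβ) (by
      ext k
      fin_cases k <;> simp [M, mulVec, dotProduct, Fin.sum_univ_three])
    simpa using this
  · have := key c ![0, 0, 1] γ hγ (by
      ext k
      fin_cases k <;> simp [M, mulVec, dotProduct, Fin.sum_univ_three])
    simpa using this
  · have := key d ![1, 1, 1] D hD (by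
      ext k
      fin_cases k <;> simp [M, mulVec, dotProduct, Fin.sum_univ_three] <;>
        rw [hDd, hαd, hβd, hγd] <;> ring)
    simpa using this

end Pool.Agent.KS6_77.RC
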