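import Pool.Agent.KS6_77.RC.Frame

/-!
# Rigidity of the base piece, and the linear system of the links
-/

set_option autoImplicit false

namespace Pool.Agent.KS6_77.RC

open Pool.Agent.Results.MP_409c19_co.RigidConfiguration
open Matrix

/-- the points of the base piece as real vectors -/
def bp (i : Fin 19) : E := fun k => (BP i k : ℝ)

/-- the lines of the base piece as real vectors -/
def bl (i : Fin 19) : E := fun k => (BL i k : ℝ)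

/-- the transformation to the frame coordinates -/
def SZ : Fin 3 → Fin 3 → ℤ := ![![4, -2, 0], ![4, -2, 6], ![3, 0, 3]]

def SS : Matrix (Fin 3) (Fin 3) ℝ := of fun r c => (SZ r c : ℝ)

theorem TP_eq : ∀ i k, TP i k = SZ k 0 * BP i 0 + SZ k 1 * BP i 1 + SZ k 2 * BP i 2 := by decide

theorem TL_eq : ∀ j k, TL j 0 * SZ 0 k + TL j 1 * SZ 1 k + TL j 2 * SZ 2 k = -36 * BL j k := by
  decide

theorem det_SS : SS.det = -36 := by
  rw [det_fin_three]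
  simp [SS, SZ]
  norm_num

theorem SS_bp (i : Fin 19) : SS *ᵥ bp i = fun k => (TP i k : ℝ) := by
  ext k
  rw [TP_eq i k]
  simp [mulVec, dotProduct, Fin.sum_univ_three, SS, bp]

theorem tl_SS (j : Fin 19) : (fun k => (TL j k : ℝ)) ᵥ* SS = (-36 : ℝ) • bl j := by
  ext k
  have h := congrArg (fun z : ℤ => (z : ℝ)) (TL_eq j k)
  simp only [Int.cast_add, Int.cast_mul, Int.cast_neg, Int.cast_ofNat] at h
  simp only [vecMul, dotProduct, Fin.sum_univ_three, SS, bl, of_apply, Pi.smul_apply, smul_eq_mul]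
  exact h

/-- **The base piece is rigid.** -/
theorem base_rigid {p l : Fin 19 → E} (H : Ex B p l) :
    ∃ G : Matrix (Fin 3) (Fin 3) ℝ, G.det ≠ 0 ∧ (∀ i, Sim (p i) (G *ᵥ bp i)) ∧
      ∀ j, Sim (l j ᵥ* G) (bl j) := by
  obtain ⟨M, hM, h5, h10, h15, h17⟩ := H.frame (a := 5) (b := 10) (c := 15) (d := 17) (j1 := 1)
    (j2 := 8) (j3 := 16) (by decide) (by decide) (by decide) (by decide) (by decide) (by decide)
    (by decide) (by decide) (by decide) (by decide) (by decide)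
  obtain ⟨hp, hl⟩ := (H.move hM).chain h5 h10 h15 h17
  refine ⟨M * SS, ?_, fun i => ?_, fun j => ?_⟩
  · rw [det_mul, det_SS]
    exact mul_ne_zero hM (by norm_num)
  · have h := hp i
    rw [pt_iff' (v := fun k => (TP i k : ℝ)), ← SS_bp i] at h
    have h2 := h.mulVec M
    rw [inv_mulVec hM, mulVec_mulVec] at h2
    exact h2
  · have h := hl j
    rw [pt_iff' (v := fun k => (TL j k : ℝ))] at h
    have h2 := h.vecMul SS
    rw [tl_SS, vecMul_vecMul] at h2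
    exact h2.trans ⟨-36, by norm_num, rfl⟩

/-- the matrix which moves each piece to the next one -/
def HZ : Fin 3 → Fin 3 → ℤ := ![![-47, -46, 147], ![22, -220, -78], ![5, -150, 9]]

def Hm : Matrix (Fin 3) (Fin 3) ℝ := of fun r c => (HZ r c : ℝ)

/-- the bilinear form of a matrix -/
theorem form_eq (X : Matrix (Fin 3) (Fin 3) ℝ) (v w : E) : dt (X *ᵥ v) w =
    (X 0 0 * v 0 + X 0 1 * v 1 + X 0 2 * v 2) * w 0 +
    (X 1 0 * v 0 + X 1 1 * v 1 + X 1 2 * v 2) * w 1 +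
    (X 2 0 * v 0 + X 2 1 * v 1 + X 2 2 * v 2) * w 2 := by
  simp [dt, mulVec, dotProduct, Fin.sum_univ_three]

theorem bpv (i : Fin 19) (a b c : ℤ) (h : BP i = ![a, b, c]) :
    bp i 0 = a ∧ bp i 1 = b ∧ bp i 2 = c := by
  simp [bp, h]

theorem blv (i : Fin 19) (a b c : ℤ) (h : BL i = ![a, b, c]) :
    bl i 0 = a ∧ bl i 1 = b ∧ bl i 2 = c := by
  simp [bl, h]

/-- **The eight incidences between two consecutive pieces determine their relative position.** -/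
theorem link_unique (X : Matrix (Fin 3) (Fin 3) ℝ)
    (e1 : dt (X *ᵥ bp 1) (bl 11) = 0) (e2 : dt (X *ᵥ bp 6) (bl 10) = 0)
    (e3 : dt (X *ᵥ bp 8) (bl 8) = 0) (e4 : dt (X *ᵥ bp 18) (bl 12) = 0)
    (e5 : dt (X *ᵥ bp 0) (bl 9) = 0) (e6 : dt (X *ᵥ bp 4) (bl 2) = 0)
    (e7 : dt (X *ᵥ bp 10) (bl 14) = 0) (e8 : dt (X *ᵥ bp 17) (bl 0) = 0) :
    ∃ c : ℝ, X = c • Hm := by
  rw [form_eq] at e1 e2 e3 e4 e5 e6 e7 e8
  obtain ⟨a1, a2, a3⟩ := bpv 1 (-3) 0 1 rfl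
  obtain ⟨b1, b2, b3⟩ := blv 11 1 2 0 rfl
  rw [a1, a2, a3, b1, b2, b3] at e1
  obtain ⟨a1, a2, a3⟩ := bpv 6 (-1) (-1) 1 rfl
  obtain ⟨b1, b2, b3⟩ := blv 10 1 (-2) 0 rfl
  rw [a1, a2, a3, b1, b2, b3] at e2
  obtain ⟨a1, a2, a3⟩ := bpv 8 1 (-2) 1 rfl
  obtain ⟨b1, b2, b3⟩ := blv 8 2 (-1) 0 rfl
  rw [a1, a2, a3, b1, b2, b3] at e3
  obtain ⟨a1, a2, a3⟩ := bpv 18 2 (-1) 0 rfl
  obtain ⟨b1, b2, b3⟩ := blv 12 1 2 (-3) rfl
  rw [a1, a2, a3, b1, b2, b3] at e4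
  obtain ⟨a1, a2, a3⟩ := bpv 0 3 0 1 rfl
  obtain ⟨b1, b2, b3⟩ := blv 9 2 1 0 rfl
  rw [a1, a2, a3, b1, b2, b3] at e5
  obtain ⟨a1, a2, a3⟩ := bpv 4 1 (-1) 1 rfl
  obtain ⟨b1, b2, b3⟩ := blv 2 0 1 (-1) rfl
  rw [a1, a2, a3, b1, b2, b3] at e6
  obtain ⟨a1, a2, a3⟩ := bpv 10 (-1) (-2) 1 rfl
  obtain ⟨b1, b2, b3⟩ := blv 14 2 1 (-3) rfl
  rw [a1, a2, a3, b1, b2, b3] at e7
  obtain ⟨a1, a2, a3⟩ := bpv 17 2 1 0 rfl
  obtain ⟨b1, b2, b3⟩ := blv 0 1 0 (-1) rfl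
  rw [a1, a2, a3, b1, b2, b3] at e8
  push_cast at e1 e2 e3 e4 e5 e6 e7 e8
  have f00 : X 0 0 = X 0 0 / (-47) * (-47) := by ring
  have f01 : X 0 1 = X 0 0 / (-47) * (-46) := by
    linear_combination (-1/47) * (-23/3 * e1 - 15 * e2 + 16 * e3 - 8/3 * e5 + 6 * e6 - 2 * e7 - 6 * e8)
  have f02 : X 0 2 = X 0 0 / (-47) * (147) := by
    linear_combination (-1/47) * (e1 + 4 * e2 + 2 * e3 - 16 * e5 + 36 * e6 - 12 * e7 - 36 * e8)
  have f10 : X 1 0 = X 0 0 / (-47) * (22) := by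
    linear_combination (-1/47) * (11/3 * e1 - e2 - 1/2 * e3 - 23/6 * e5 - 9 * e6 + 3 * e7 + 9 * e8)
  have f11 : X 1 1 = X 0 0 / (-47) * (-220) := by
    linear_combination (-1/47) * (-21 * e1 - 37 * e2 + 5 * e3 + 7 * e5 - 51 * e6 + 17 * e7 + 51 * e8)
  have f12 : X 1 2 = X 0 0 / (-47) * (-78) := by
    linear_combination (-1/47) * (-13 * e1 - 5 * e2 - 5/2 * e3 - 7/2 * e5 - 45 * e6 + 15 * e7 + 45 * e8)
  have f20 : X 2 0 = X 0 0 / (-47) * (5) := by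
    linear_combination (-1/47) * (31/9 * e1 + 10/3 * e2 + 5/3 * e3 + 47/12 * e4 - 26/9 * e5 + 13/2 * e6 - 13/6 * e7 + 21/4 * e8)
  have f21 : X 2 1 = X 0 0 / (-47) * (-150) := by
    linear_combination (-1/47) * (-131/9 * e1 - 65/3 * e2 + 38/3 * e3 - 47/6 * e4 + 28/9 * e5 - 7 * e6 + 7/3 * e7 + 61/2 * e8)
  have f22 : X 2 2 = X 0 0 / (-47) * (9) := by
    linear_combination (-1/47) * (-19/3 * e1 + 6 * e2 + 3 * e3 - 47/4 * e4 - 25/3 * e5 + 61/2 * e6 + 11/2 * e7 + 113/4 * e8)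
  refine ⟨X 0 0 / (-47), ?_⟩
  ext r c
  show X r c = X 0 0 / (-47) * ((HZ r c : ℤ) : ℝ)
  fin_cases r <;> fin_cases c
  · show X 0 0 = X 0 0 / (-47) * (((-47 : ℤ)) : ℝ)
    rw [f00]
    push_cast
    ring
  · show X 0 1 = X 0 0 / (-47) * (((-46 : ℤ)) : ℝ)
    rw [f01]
    push_cast
    ring
  · show X 0 2 = X 0 0 / (-47) * (((147 : ℤ)) : ℝ)
    rw [f02]
    push_cast
    ring
  · show X 1 0 = X 0 0 / (-47) * (((22 : ℤ)) : ℝ)
    rw [f10]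
    push_cast
    ring
  · show X 1 1 = X 0 0 / (-47) * (((-220 : ℤ)) : ℝ)
    rw [f11]
    push_cast
    ring
  · show X 1 2 = X 0 0 / (-47) * (((-78 : ℤ)) : ℝ)
    rw [f12]
    push_cast
    ring
  · show X 2 0 = X 0 0 / (-47) * (((5 : ℤ)) : ℝ)
    rw [f20]
    push_cast
    ring
  · show X 2 1 = X 0 0 / (-47) * (((-150 : ℤ)) : ℝ)
    rw [f21]
    push_cast
    ring
  · show X 2 2 = X 0 0 / (-47) * (((9 : ℤ)) : ℝ)
    rw [f22]
    push_cast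
    ring

end Pool.Agent.KS6_77.RC
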