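import Pool.Agent.KS6_77.RC.Chain

/-!
# The chain of pieces is rigid
-/

set_option autoImplicit false

namespace Pool.Agent.KS6_77.RC

open Pool.Agent.Results.MP_409c19_co.RigidConfiguration
open Matrix

/-- the standard realization as real vectors -/
def pr (m : ℕ) (q : Idx m) : E := fun k => (pz m q k : ℝ)

def lr (m : ℕ) (q : Idx m) : E := fun k => (lz m q k : ℝ)

theorem exact_r (m : ℕ) (hm : 1 ≤ m) (q r : Idx m) :
    pr m q 0 * lr m r 0 + pr m q 1 * lr m r 1 + pr m q 2 * lr m r 2 = 0 ↔ Inc m q r := by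
  rw [← exact_z m hm q r]
  have e : pr m q 0 * lr m r 0 + pr m q 1 * lr m r 1 + pr m q 2 * lr m r 2 =
      ((dz (lz m r) (pz m q) : ℤ) : ℝ) := by
    simp only [pr, lr, dz]
    push_cast
    ring
  rw [e, Int.cast_eq_zero]

theorem exB1 : ∀ i : Fin 19, ∃ k, ¬ B i k := by decide

theorem exB2 : ∀ k : Fin 19, ∃ i, ¬ B i k := by decide

theorem standard_ex (m : ℕ) (hm : 1 ≤ m) : Ex (Inc m) (pr m) (lr m) := by
  have hp : ∀ q r, ¬ Inc m q r → ¬ (pr m q 0 = 0 ∧ pr m q 1 = 0 ∧ pr m q 2 = 0) := by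
    rintro q r h ⟨h0, h1, h2⟩
    apply h
    rw [← exact_r m hm, h0, h1, h2]
    ring
  have hl : ∀ q r, ¬ Inc m q r → ¬ (lr m r 0 = 0 ∧ lr m r 1 = 0 ∧ lr m r 2 = 0) := by
    rintro q r h ⟨h0, h1, h2⟩
    apply h
    rw [← exact_r m hm, h0, h1, h2]
    ring
  refine ⟨?_, ?_, exact_r m hm⟩
  · rintro (⟨a, i⟩ | e)
    · obtain ⟨k, hk⟩ := exB1 i
      apply hp _ (.inl (a, k))
      rintro (⟨_, h⟩ | ⟨h, _⟩)
      · exact hk h
      · simp at h
    · exact hp _ (.inr 0) (fun h => h)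
  · rintro (⟨a, i⟩ | e)
    · obtain ⟨k, hk⟩ := exB2 i
      apply hl (.inl (a, k))
      rintro (⟨_, h⟩ | ⟨h, _⟩)
      · exact hk h
      · simp at h
    · exact hl (.inr 0) _ (fun h => h)

/-! ### Real matrices -/

theorem cast_mH (v : Fin 3 → ℤ) : (fun k => ((mH v k : ℤ) : ℝ)) = Hm *ᵥ fun k => (v k : ℝ) := by
  ext k
  simp [mH, Hm, mulVec, dotProduct, Fin.sum_univ_three]

theorem cast_iter (v : Fin 3 → ℤ) (t : ℕ) :
    (fun k => ((mH^[t] v k : ℤ) : ℝ)) = (Hm ^ t) *ᵥ fun k => (v k : ℝ) := by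
  induction t with
  | zero => simp
  | succ t ih =>
    rw [Function.iterate_succ_apply', cast_mH, ih, mulVec_mulVec, pow_succ']

theorem pr_inl (m : ℕ) (a : Fin m) (i : Fin 19) : pr m (.inl (a, i)) = (Hm ^ a.val) *ᵥ bp i :=
  cast_iter (BP i) a.val

theorem sim_of_perp {a b x y : E}
    (hab : ¬ (a 1 * b 2 - a 2 * b 1 = 0 ∧ a 2 * b 0 - a 0 * b 2 = 0 ∧ a 0 * b 1 - a 1 * b 0 = 0))
    (hx : ¬ (x 0 = 0 ∧ x 1 = 0 ∧ x 2 = 0)) (hy : ¬ (y 0 = 0 ∧ y 1 = 0 ∧ y 2 = 0))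
    (xa : dt a x = 0) (xb : dt b x = 0) (ya : dt a y = 0) (yb : dt b y = 0) : Sim x y := by
  have key : ∀ z : E, ¬ (z 0 = 0 ∧ z 1 = 0 ∧ z 2 = 0) → dt a z = 0 → dt b z = 0 →
      Sim z ![a 1 * b 2 - a 2 * b 1, a 2 * b 0 - a 0 * b 2, a 0 * b 1 - a 1 * b 0] := by
    intro z hz za zb
    obtain ⟨r, hr, h0, h1, h2⟩ := par (a 0) (a 1) (a 2) (b 0) (b 1) (b 2) (z 0) (z 1) (z 2)
      (a 0) (a 1) (a 2) (b 0) (b 1) (b 2) (a 1 * b 2 - a 2 * b 1) (a 2 * b 0 - a 0 * b 2)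
      (a 0 * b 1 - a 1 * b 0) 1 1 1 (by ring) (by ring) (by ring) (by ring) (by ring) (by ring)
      za zb hz hab (by ring) (by ring) (by ring)
    refine ⟨r, hr, ?_⟩
    ext k
    fin_cases k
    · simpa using h0
    · simpa using h1
    · simpa using h2
  exact (key x hx xa xb).trans (key y hy ya yb).symm

variable {ι κ : Type} {R : ι → κ → Prop} {p p' : ι → E} {l l' : κ → E}

/-- lines are determined by two of their points -/
theorem Ex.line_sim (H : Ex R p l) (H' : Ex R p' l') {G : Matrix (Fin 3) (Fin 3) ℝ}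
    (hG : G.det ≠ 0) {i i' : ι} {j k : κ} (hi : Sim (p i) (G *ᵥ p' i))
    (hi' : Sim (p i') (G *ᵥ p' i')) (h1 : R i j) (h2 : R i' j) (hk : R i k) (hk' : ¬ R i' k) :
    Sim (l j ᵥ* G) (l' j) := by
  refine sim_of_perp (a := p' i) (b := p' i') (H'.pp hk hk') ?_ (H'.lne j) ?_ ?_ (H'.inc i j |>.2 h1)
    (H'.inc i' j |>.2 h2)
  · rw [ne_iff]
    exact vecMul_ne hG ((ne_iff _).1 (H.lne j))
  · obtain ⟨c, hc, e⟩ := hi
    have h := (H.inc' i j).2 h1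
    rw [e] at h
    have h' : c * dt (G *ᵥ p' i) (l j) = 0 := by
      rw [← h]
      simp only [dt, Pi.smul_apply, smul_eq_mul]
      ring
    rw [← dt_mulVec]
    exact (mul_eq_zero.mp h').resolve_left hc
  · obtain ⟨c, hc, e⟩ := hi'
    have h := (H.inc' i' j).2 h2
    rw [e] at h
    have h' : c * dt (G *ᵥ p' i') (l j) = 0 := by
      rw [← h]
      simp only [dt, Pi.smul_apply, smul_eq_mul]
      ring
    rw [← dt_mulVec]
    exact (mul_eq_zero.mp h').resolve_left hc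

theorem dt_comm (v w : E) : dt v w = dt w v := by
  simp only [dt]
  ring

/-- points are determined by two of their lines -/
theorem Ex.point_sim (H : Ex R p l) (H' : Ex R p' l') {G : Matrix (Fin 3) (Fin 3) ℝ}
    (hG : G.det ≠ 0) {j j' : κ} {i k : ι} (hj : Sim (l j ᵥ* G) (l' j))
    (hj' : Sim (l j' ᵥ* G) (l' j')) (h1 : R i j) (h2 : R i j') (hk : R k j) (hk' : ¬ R k j') :
    Sim (p i) (G *ᵥ p' i) := by
  refine sim_of_perp (a := l j) (b := l j') (H.swap.pp (k := k) hk hk') (H.pne i) ?_ ?_ ?_ ?_ ?_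
  · rw [ne_iff]
    intro h
    apply (ne_iff _).1 (H'.pne i)
    rw [← mulVec_inv hG (p' i), h, mulVec_zero]
  · rw [dt_comm]
    exact (H.inc' i j).2 h1
  · rw [dt_comm]
    exact (H.inc' i j').2 h2
  · obtain ⟨c, hc, e⟩ := hj
    have h := (H'.inc' i j).2 h1
    rw [dt_comm, dt_mulVec, e]
    have : dt (p' i) (c • l' j) = c * dt (p' i) (l' j) := by
      simp only [dt, Pi.smul_apply, smul_eq_mul]
      ring
    rw [this, h, mul_zero]
  · obtain ⟨c, hc, e⟩ := hj'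
    have h := (H'.inc' i j').2 h2
    rw [dt_comm, dt_mulVec, e]
    have : dt (p' i) (c • l' j') = c * dt (p' i) (l' j') := by
      simp only [dt, Pi.smul_apply, smul_eq_mul]
      ring
    rw [this, h, mul_zero]

theorem Ex.piece {m : ℕ} {p l : Idx m → E} (H : Ex (Inc m) p l) (a : Fin m) :
    Ex B (fun i => p (.inl (a, i))) (fun k => l (.inl (a, k))) := by
  refine ⟨fun i => H.pne _, fun k => H.lne _, fun i k => ?_⟩
  rw [H.inc]
  constructor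
  · rintro (⟨_, h⟩ | ⟨h, _⟩)
    · exact h
    · simp at h
  · intro h
    exact Or.inl ⟨rfl, h⟩

/-- **Two consecutive pieces.** -/
theorem Ex.step {m : ℕ} {p l : Idx m → E} (H : Ex (Inc m) p l) {a b : Fin m}
    (hab : a.val + 1 = b.val) {G G' : Matrix (Fin 3) (Fin 3) ℝ} (hG : G.det ≠ 0)
    (hG' : G'.det ≠ 0) (h : ∀ k, Sim (l (.inl (a, k)) ᵥ* G) (bl k))
    (h' : ∀ i, Sim (p (.inl (b, i))) (G' *ᵥ bp i)) :
    ∃ c : ℝ, c ≠ 0 ∧ G' = c • (G * Hm) := by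
  have key : ∀ i k, Lk i k → dt ((G⁻¹ * G') *ᵥ bp i) (bl k) = 0 := by
    intro i k hik
    have h1 : dt (p (.inl (b, i))) (l (.inl (a, k))) = 0 := by
      rw [H.inc']
      exact Or.inr ⟨hab, hik⟩
    obtain ⟨c, hc, e⟩ := h' i
    obtain ⟨d, hd, f⟩ := (h k).symm
    rw [f]
    have : dt ((G⁻¹ * G') *ᵥ bp i) (d • l (.inl (a, k)) ᵥ* G)
        = d * dt (G' *ᵥ bp i) (l (.inl (a, k))) := by
      rw [show dt ((G⁻¹ * G') *ᵥ bp i) (d • l (.inl (a, k)) ᵥ* G) =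
        d * dt ((G⁻¹ * G') *ᵥ bp i) (l (.inl (a, k)) ᵥ* G) by
        simp only [dt, Pi.smul_apply, smul_eq_mul]; ring]
      rw [← dt_mulVec, mulVec_mulVec, ← Matrix.mul_assoc,
        mul_nonsing_inv _ (isUnit_iff_ne_zero.mpr hG), Matrix.one_mul]
    rw [this]
    rw [e] at h1
    have h2 : c * dt (G' *ᵥ bp i) (l (.inl (a, k))) = 0 := by
      rw [← h1]
      simp only [dt, Pi.smul_apply, smul_eq_mul]
      ring
    rw [(mul_eq_zero.mp h2).resolve_left hc, mul_zero]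
  obtain ⟨c, hc⟩ := link_unique (G⁻¹ * G') (key 1 11 (by decide)) (key 6 10 (by decide))
    (key 8 8 (by decide)) (key 18 12 (by decide)) (key 0 9 (by decide)) (key 4 2 (by decide))
    (key 10 14 (by decide)) (key 17 0 (by decide))
  have e : G' = c • (G * Hm) := by
    have : G * (G⁻¹ * G') = G * (c • Hm) := by rw [hc]
    rw [← Matrix.mul_assoc, mul_nonsing_inv _ (isUnit_iff_ne_zero.mpr hG), Matrix.one_mul,
      Matrix.mul_smul] at this
    exact this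
  refine ⟨c, ?_, e⟩
  rintro rfl
  apply hG'
  rw [e, zero_smul, det_zero]

theorem exE1 : ∀ k : Fin 19, ∃ i i' k' : Fin 19, B i k ∧ B i' k ∧ B i k' ∧ ¬ B i' k' := by
  decide +kernel

theorem exE2 : ∀ e : Fin 2, ∃ i i' k' : Fin 19, X1 e i ∧ X1 e i' ∧ B i k' ∧ ¬ B i' k' := by
  decide +kernel

theorem exE3 : ∀ e : Fin 2, ∃ k k' i' : Fin 19, X2 e k ∧ X2 e k' ∧ B i' k ∧ ¬ B i' k' := by
  decide +kernel

/-- **The chain is rigid.** Every exact realization is the image of the standard one. -/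
theorem chain_rigid {m : ℕ} (hm : 1 ≤ m) {p l : Idx m → E} (H : Ex (Inc m) p l) :
    ∃ G : Matrix (Fin 3) (Fin 3) ℝ, G.det ≠ 0 ∧ (∀ q, Sim (p q) (G *ᵥ pr m q)) ∧
      ∀ r, Sim (l r ᵥ* G) (lr m r) := by
  have S := standard_ex m hm
  choose G hG hGp hGl using fun a => base_rigid (H.piece a)
  have h0 : 0 < m := hm
  have ind : ∀ (n : ℕ) (hn : n < m), ∃ c : ℝ, c ≠ 0 ∧ G ⟨n, hn⟩ = c • (G ⟨0, h0⟩ * Hm ^ n) := by
    intro n
    induction n with
    | zero =>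
      intro hn
      exact ⟨1, one_ne_zero, by simp⟩
    | succ n ih =>
      intro hn
      obtain ⟨c, hc, e⟩ := ih (by omega)
      obtain ⟨d, hd, f⟩ := H.step (a := ⟨n, by omega⟩) (b := ⟨n + 1, hn⟩) rfl (hG _) (hG _)
        (hGl _) (hGp _)
      refine ⟨d * c, mul_ne_zero hd hc, ?_⟩
      rw [f, e, smul_mul, smul_smul, Matrix.mul_assoc, ← pow_succ]
  have hbase : ∀ (a : Fin m) (i : Fin 19),
      Sim (p (.inl (a, i))) (G ⟨0, h0⟩ *ᵥ pr m (.inl (a, i))) := by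
    intro a i
    obtain ⟨c, hc, e⟩ := ind a.val a.2
    have h := hGp a i
    rw [show G a = c • (G ⟨0, h0⟩ * Hm ^ a.val) from e, smul_mulVec] at h
    rw [pr_inl, mulVec_mulVec]
    exact h.trans ⟨c, hc, rfl⟩
  have hline : ∀ r, Sim (l r ᵥ* G ⟨0, h0⟩) (lr m r) := by
    rintro (⟨b, k⟩ | e)
    · obtain ⟨i, i', k', h1, h2, h3, h4⟩ := exE1 k
      refine H.line_sim S (hG _) (hbase b i) (hbase b i') (k := .inl (b, k')) (Or.inl ⟨rfl, h1⟩)
        (Or.inl ⟨rfl, h2⟩) (Or.inl ⟨rfl, h3⟩) ?_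
      rintro (⟨_, h⟩ | ⟨h, _⟩)
      · exact h4 h
      · simp at h
    · obtain ⟨i, i', k', h1, h2, h3, h4⟩ := exE2 e
      refine H.line_sim S (hG _) (hbase ⟨0, h0⟩ i) (hbase ⟨0, h0⟩ i') (k := .inl (⟨0, h0⟩, k'))
        ⟨rfl, h1⟩ ⟨rfl, h2⟩ (Or.inl ⟨rfl, h3⟩) ?_
      rintro (⟨_, h⟩ | ⟨h, _⟩)
      · exact h4 h
      · simp at h
  refine ⟨G ⟨0, h0⟩, hG _, ?_, hline⟩
  rintro (⟨a, i⟩ | e)
  · exact hbase a i
  · obtain ⟨k, k', i', h1, h2, h3, h4⟩ := exE3 e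
    refine H.point_sim S (hG _) (hline (.inl (⟨m - 1, by omega⟩, k)))
      (hline (.inl (⟨m - 1, by omega⟩, k'))) (k := .inl (⟨m - 1, by omega⟩, i'))
      ⟨by simp; omega, h1⟩ ⟨by simp; omega, h2⟩ (Or.inl ⟨rfl, h3⟩) ?_
    rintro (⟨_, h⟩ | ⟨h, _⟩)
    · exact h4 h
    · simp at h

end Pool.Agent.KS6_77.RC
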