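import Pool.Agent.KS6_77.RC.Rigid

/-!
# From vectors to subspaces
-/

set_option autoImplicit false

namespace Pool.Agent.KS6_77.RC

open Pool.Agent.Results.MP_409c19_co.RigidConfiguration
open Matrix

/-! ### Distinctness -/

theorem sep1 : ∀ i i' : Fin 19, (∀ k, B i k ↔ B i' k) → i = i' := by decide +kernel

theorem sep2 : ∀ k k' : Fin 19, (∀ i, B i k ↔ B i k') → k = k' := by decide +kernel

theorem sep3 : ∀ (e : Fin 2) (i : Fin 19), ∃ k, X2 e k ∧ ¬ B i k := by decide +kernel

theorem sep4 : ∀ (e : Fin 2) (k : Fin 19), ∃ i, X1 e i ∧ ¬ B i k := by decide +kernel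

theorem sep5 : ∀ e e' : Fin 2, (∀ k, X2 e k ↔ X2 e' k) → e = e' := by decide +kernel

theorem sep6 : ∀ e e' : Fin 2, (∀ i, X1 e i ↔ X1 e' i) → e = e' := by decide +kernel

theorem sep7 : ∀ i : Fin 19, ∃ k, B i k := by decide +kernel

theorem sep8 : ∀ k : Fin 19, ∃ i, B i k := by decide +kernel

theorem inj_point_aux {m : ℕ} (hm : 1 ≤ m) (a : Fin m) (i : Fin 19) (e : Fin 2)
    (h : ∀ r, Inc m (.inl (a, i)) r ↔ Inc m (.inr e) r) : False := by
  by_cases ha : a.val + 1 = m
  · obtain ⟨k, h1, h2⟩ := sep3 e i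
    rcases (h (.inl (a, k))).2 ⟨ha, h1⟩ with ⟨_, h3⟩ | ⟨h3, _⟩
    · exact h2 h3
    · simp at h3
  · obtain ⟨k, hk⟩ := sep7 i
    exact ha ((h (.inl (a, k))).1 (Or.inl ⟨rfl, hk⟩)).1

theorem inj_point {m : ℕ} (hm : 1 ≤ m) (q q' : Idx m) (h : ∀ r, Inc m q r ↔ Inc m q' r) :
    q = q' := by
  rcases q with ⟨a, i⟩ | e <;> rcases q' with ⟨a', i'⟩ | e'
  · have haa : a = a' := by
      rcases lt_trichotomy a.val a'.val with h1 | h1 | h1
      · exfalso
        obtain ⟨k, hk⟩ := sep7 i'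
        rcases (h (.inl (a', k))).2 (Or.inl ⟨rfl, hk⟩) with ⟨h2, _⟩ | ⟨h2, _⟩ <;>
          simp only at h2 <;> omega
      · exact Fin.ext h1
      · exfalso
        obtain ⟨k, hk⟩ := sep7 i
        rcases (h (.inl (a, k))).1 (Or.inl ⟨rfl, hk⟩) with ⟨h2, _⟩ | ⟨h2, _⟩ <;>
          simp only at h2 <;> omega
    subst haa
    have : i = i' := by
      apply sep1
      intro k
      have := h (.inl (a, k))
      simpa [Inc] using this
    rw [this]
  · exact (inj_point_aux hm a i e' h).elim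
  · exact (inj_point_aux hm a' i' e (fun r => (h r).symm)).elim
  · have : e = e' := by
      apply sep5
      intro k
      have := h (.inl (⟨m - 1, by omega⟩, k))
      have e1 : m - 1 + 1 = m := by omega
      simpa [Inc, e1] using this
    rw [this]

theorem inj_line_aux {m : ℕ} (hm : 1 ≤ m) (b : Fin m) (k : Fin 19) (e : Fin 2)
    (h : ∀ q, Inc m q (.inl (b, k)) ↔ Inc m q (.inr e)) : False := by
  by_cases hb : b.val = 0
  · obtain ⟨i, h1, h2⟩ := sep4 e k
    rcases (h (.inl (b, i))).2 ⟨hb, h1⟩ with ⟨_, h3⟩ | ⟨h3, _⟩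
    · exact h2 h3
    · simp at h3
  · obtain ⟨i, hi⟩ := sep8 k
    exact hb ((h (.inl (b, i))).1 (Or.inl ⟨rfl, hi⟩)).1

theorem inj_line {m : ℕ} (hm : 1 ≤ m) (r r' : Idx m) (h : ∀ q, Inc m q r ↔ Inc m q r') :
    r = r' := by
  rcases r with ⟨b, k⟩ | e <;> rcases r' with ⟨b', k'⟩ | e'
  · have hbb : b = b' := by
      rcases lt_trichotomy b.val b'.val with h1 | h1 | h1
      · exfalso
        obtain ⟨i, hi⟩ := sep8 k
        rcases (h (.inl (b, i))).1 (Or.inl ⟨rfl, hi⟩) with ⟨h2, _⟩ | ⟨h2, _⟩ <;>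
          simp only at h2 <;> omega
      · exact Fin.ext h1
      · exfalso
        obtain ⟨i, hi⟩ := sep8 k'
        rcases (h (.inl (b', i))).2 (Or.inl ⟨rfl, hi⟩) with ⟨h2, _⟩ | ⟨h2, _⟩ <;>
          simp only at h2 <;> omega
    subst hbb
    have : k = k' := by
      apply sep2
      intro i
      have := h (.inl (b, i))
      simpa [Inc] using this
    rw [this]
  · exact (inj_line_aux hm b k e' h).elim
  · exact (inj_line_aux hm b' k' e (fun r => (h r).symm)).elim
  · have : e = e' := by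
      apply sep6
      intro i
      have := h (.inl (⟨0, by omega⟩, i))
      simpa [Inc] using this
    rw [this]

variable {ι κ : Type} {R : ι → κ → Prop} {p p' : ι → E} {l l' : κ → E}

theorem Ex.sim_iff (H : Ex R p l) {i i' : ι} (h : Sim (p i) (p i')) (k : κ) : R i k ↔ R i' k := by
  obtain ⟨c, hc, e⟩ := h
  rw [← H.inc' i k, ← H.inc' i' k, e]
  have : dt (c • p i') (l k) = c * dt (p i') (l k) := by
    simp only [dt, Pi.smul_apply, smul_eq_mul]
    ring
  rw [this, mul_eq_zero]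
  simp [hc]

theorem sim_of_span {v w : E} (hv : v ≠ 0) (hw : w ≠ 0)
    (h : Submodule.span ℝ {v} = Submodule.span ℝ {w}) : Sim v w := by
  have : v ∈ Submodule.span ℝ {w} := by
    rw [← h]
    exact Submodule.mem_span_singleton_self v
  obtain ⟨c, hc⟩ := Submodule.mem_span_singleton.1 this
  refine ⟨c, ?_, hc.symm⟩
  rintro rfl
  rw [zero_smul] at hc
  exact hv hc.symm

theorem span_of_sim {v w : E} (h : Sim v w) : Submodule.span ℝ {v} = Submodule.span ℝ {w} := by
  obtain ⟨c, hc, e⟩ := h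
  exact span_smul hc e

theorem ker_of_sim {v w : E} (h : Sim v w) :
    LinearMap.ker (fun3 v) = LinearMap.ker (fun3 w) := by
  obtain ⟨c, hc, e⟩ := h
  exact ker_smul hc e

/-- The functional of a line is determined by its kernel. -/
theorem sim_of_ker {v w : E} (hv : v ≠ 0) (hw : w ≠ 0)
    (h : LinearMap.ker (fun3 v) = LinearMap.ker (fun3 w)) : Sim v w := by
  -- `v × e` is in the kernel of `v`, hence orthogonal to `w`
  have key : ∀ x : E, v 0 * x 0 + v 1 * x 1 + v 2 * x 2 = 0 →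
      w 0 * x 0 + w 1 * x 1 + w 2 * x 2 = 0 := by
    intro x hx
    have h1 : x ∈ LinearMap.ker (fun3 v) := by
      rw [LinearMap.mem_ker, fun3_apply]
      exact hx
    rw [h, LinearMap.mem_ker, fun3_apply] at h1
    exact h1
  have h0 := key ![0, -v 2, v 1] (by simp; ring)
  have h1 := key ![v 2, 0, -v 0] (by simp; ring)
  have h2 := key ![-v 1, v 0, 0] (by simp; ring)
  simp at h0 h1 h2
  exact parallel ((ne_iff v).2 hv) ((ne_iff w).2 hw)
    ⟨by linarith, by linarith, by linarith⟩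

/-- the linear automorphism of an invertible matrix -/
noncomputable def aut (M : Matrix (Fin 3) (Fin 3) ℝ) (hM : M.det ≠ 0) : E ≃ₗ[ℝ] E :=
  LinearEquiv.ofLinear (Matrix.toLin' M) (Matrix.toLin' M⁻¹)
    (by rw [← Matrix.toLin'_mul, mul_nonsing_inv _ (isUnit_iff_ne_zero.mpr hM), Matrix.toLin'_one])
    (by rw [← Matrix.toLin'_mul, nonsing_inv_mul _ (isUnit_iff_ne_zero.mpr hM), Matrix.toLin'_one])

theorem aut_apply (M : Matrix (Fin 3) (Fin 3) ℝ) (hM : M.det ≠ 0) (v : E) :
    aut M hM v = M *ᵥ v := by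
  simp [aut]

theorem aut_map_span (M : Matrix (Fin 3) (Fin 3) ℝ) (hM : M.det ≠ 0) {v w : E}
    (h : Sim (M *ᵥ v) w) :
    (Submodule.span ℝ {v}).map (aut M hM : E →ₗ[ℝ] E) = Submodule.span ℝ {w} := by
  rw [Submodule.map_span, Set.image_singleton]
  apply span_of_sim
  have : (aut M hM : E →ₗ[ℝ] E) v = M *ᵥ v := aut_apply M hM v
  rw [this]
  exact h

theorem aut_map_ker (M : Matrix (Fin 3) (Fin 3) ℝ) (hM : M.det ≠ 0) {v w : E}
    (h : Sim (w ᵥ* M) v) :
    (LinearMap.ker (fun3 v)).map (aut M hM : E →ₗ[ℝ] E) = LinearMap.ker (fun3 w) := by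
  rw [← ker_of_sim h]
  have key : ∀ x, fun3 (w ᵥ* M) x = fun3 w (M *ᵥ x) := by
    intro x
    have h1 := dt_mulVec M x w
    rw [fun3_apply, fun3_apply]
    simp only [dt] at h1
    linarith
  ext x
  simp only [Submodule.mem_map, LinearMap.mem_ker]
  constructor
  · rintro ⟨y, hy, rfl⟩
    have : (aut M hM : E →ₗ[ℝ] E) y = M *ᵥ y := aut_apply M hM y
    rw [this, ← key]
    exact hy
  · intro hx
    refine ⟨M⁻¹ *ᵥ x, ?_, ?_⟩
    · rw [key, inv_mulVec hM]
      exact hx
    · have : (aut M hM : E →ₗ[ℝ] E) (M⁻¹ *ᵥ x) = M *ᵥ (M⁻¹ *ᵥ x) := aut_apply M hM _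
      rw [this, inv_mulVec hM]

/-- the incidence relation on `Fin n` -/
def IncF (m : ℕ) (e : Fin (19 * m + 2) ≃ Idx m) (i j : Fin (19 * m + 2)) : Prop :=
  Inc m (e i) (e j)

theorem card_idx (m : ℕ) : Fintype.card (Fin (19 * m + 2)) = Fintype.card (Idx m) := by
  simp
  ring

theorem regularF (m : ℕ) (hm : 1 ≤ m) (e : Fin (19 * m + 2) ≃ Idx m) :
    IsRegular 4 (IncF m e) := by
  constructor
  · intro i
    have : {j | IncF m e i j} = e.symm '' {r | Inc m (e i) r} := by
      ext j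
      simp only [IncF, Set.mem_ofPred_eq, Set.mem_image]
      constructor
      · intro h
        exact ⟨e j, h, by simp⟩
      · rintro ⟨r, h, rfl⟩
        simpa using h
    rw [this, Set.ncard_image_of_injective _ e.symm.injective]
    exact regular_point m hm (e i)
  · intro j
    have : {i | IncF m e i j} = e.symm '' {q | Inc m q (e j)} := by
      ext i
      simp only [IncF, Set.mem_ofPred_eq, Set.mem_image]
      constructor
      · intro h
        exact ⟨e i, h, by simp⟩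
      · rintro ⟨r, h, rfl⟩
        simpa using h
    rw [this, Set.ncard_image_of_injective _ e.symm.injective]
    exact regular_line m hm (e j)

theorem realizationF (m : ℕ) (hm : 1 ≤ m) (e : Fin (19 * m + 2) ≃ Idx m) :
    IsRealization (IncF m e) (fun i => Submodule.span ℝ {pr m (e i)})
      (fun j => LinearMap.ker (fun3 (lr m (e j)))) := by
  have S := standard_ex m hm
  refine ⟨fun i => ?_, fun j => ?_, fun i i' h => ?_, fun j j' h => ?_, fun i j => ?_⟩
  · exact finrank_span_singleton ((ne_iff _).1 (S.pne _))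
  · exact finrank_ker (S.lne _)
  · apply e.injective
    apply inj_point hm
    exact S.sim_iff (sim_of_span ((ne_iff _).1 (S.pne _)) ((ne_iff _).1 (S.pne _)) h)
  · apply e.injective
    apply inj_line hm
    exact S.swap.sim_iff (sim_of_ker ((ne_iff _).1 (S.lne _)) ((ne_iff _).1 (S.lne _)) h)
  · rw [span_le_ker]
    exact S.inc _ _

theorem exists_ex (m : ℕ) (e : Fin (19 * m + 2) ≃ Idx m)
    {P L : Fin (19 * m + 2) → Submodule ℝ E} (H : IsRealization (IncF m e) P L) :
    ∃ p l : Idx m → E, Ex (Inc m) p l ∧ (∀ i, P i = Submodule.span ℝ {p (e i)}) ∧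
      ∀ j, L j = LinearMap.ker (fun3 (l (e j))) := by
  choose p hp hP using fun i => exists_point (H.point_dim i)
  choose l hl hL using fun j => exists_line (H.line_dim j)
  refine ⟨fun q => p (e.symm q), fun r => l (e.symm r), ⟨fun q => hp _, fun r => hl _, ?_⟩,
    fun i => by simpa using hP i, fun j => by simpa using hL j⟩
  intro q r
  rw [← span_le_ker, ← hP, ← hL, H.incidence]
  simp [IncF]

/-- **The chains are rigid.** -/
theorem rigidF (m : ℕ) (hm : 1 ≤ m) (e : Fin (19 * m + 2) ≃ Idx m) : IsRigid (IncF m e) := by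
  refine ⟨⟨_, _, realizationF m hm e⟩, ?_⟩
  intro P L P' L' H H'
  obtain ⟨p, l, hx, hP, hL⟩ := exists_ex m e H
  obtain ⟨p', l', hx', hP', hL'⟩ := exists_ex m e H'
  obtain ⟨G, hG, g1, g2⟩ := chain_rigid hm hx
  obtain ⟨G', hG', g1', g2'⟩ := chain_rigid hm hx'
  have hM : (G' * G⁻¹).det ≠ 0 := by
    rw [det_mul]
    refine mul_ne_zero hG' ?_
    rw [det_nonsing_inv]
    simpa using hG
  refine ⟨aut (G' * G⁻¹) hM, fun i => ?_, fun j => ?_⟩
  · rw [hP i, hP' i]
    apply aut_map_span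
    have h1 := (g1 (e i)).mulVec G⁻¹
    rw [mulVec_inv hG] at h1
    have h2 := h1.mulVec G'
    rw [mulVec_mulVec] at h2
    exact h2.trans (g1' (e i)).symm
  · rw [hL j, hL' j]
    apply aut_map_ker
    have h1 := (g2' (e j)).trans (g2 (e j)).symm
    have h2 := h1.vecMul G⁻¹
    rw [vecMul_vecMul, vecMul_vecMul, mul_nonsing_inv _ (isUnit_iff_ne_zero.mpr hG), vecMul_one]
      at h2
    exact h2

end Pool.Agent.KS6_77.RC
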