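import Mathlib
import Pool.Graph.R_seed8.Results.MP_409c19_co.RigidConfiguration

/-!
# Joins and meets in exact realizations

Vectors of `ℝ³` represent points and lines of the projective plane; `Ex R p l` says that the
incidences of the points `p` and lines `l` are exactly those prescribed by `R`.
-/

set_option autoImplicit false

namespace Pool.Agent.KS6_77.RC

open Pool.Agent.Results.MP_409c19_co.RigidConfiguration

/-- vectors `p i` and `l j` whose orthogonality relation is exactly `R` -/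
structure Ex {ι κ : Type} (R : ι → κ → Prop) (p : ι → E) (l : κ → E) : Prop where
  pne : ∀ i, ¬ (p i 0 = 0 ∧ p i 1 = 0 ∧ p i 2 = 0)
  lne : ∀ j, ¬ (l j 0 = 0 ∧ l j 1 = 0 ∧ l j 2 = 0)
  inc : ∀ i j, p i 0 * l j 0 + p i 1 * l j 1 + p i 2 * l j 2 = 0 ↔ R i j

/-- `p i` is a nonzero multiple of `(v0, v1, v2)` -/
def Pt {ι : Type} (p : ι → E) (i : ι) (v0 v1 v2 : ℝ) : Prop :=
  ∃ c : ℝ, c ≠ 0 ∧ p i 0 = c * v0 ∧ p i 1 = c * v1 ∧ p i 2 = c * v2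

variable {ι κ : Type} {R : ι → κ → Prop} {p : ι → E} {l : κ → E}

theorem Ex.swap (H : Ex R p l) : Ex (fun j i => R i j) l p :=
  ⟨H.lne, H.pne, fun j i => by
    rw [← H.inc i j]
    constructor <;> intro h <;> linarith⟩

theorem Ex.pp (H : Ex R p l) {i i' : ι} {k : κ} (h : R i k) (h' : ¬ R i' k) :
    ¬ (p i 1 * p i' 2 - p i 2 * p i' 1 = 0 ∧ p i 2 * p i' 0 - p i 0 * p i' 2 = 0 ∧
      p i 0 * p i' 1 - p i 1 * p i' 0 = 0) := by
  intro h0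
  obtain ⟨c, hc, e⟩ := parallel (H.pne i) (H.pne i') h0
  apply h'
  rw [← H.inc]
  have h2 := (H.inc i k).2 h
  rw [e] at h2
  simp only [Pi.smul_apply, smul_eq_mul] at h2
  have h3 : c * (p i' 0 * l k 0 + p i' 1 * l k 1 + p i' 2 * l k 2) = 0 := by linarith
  exact (mul_eq_zero.mp h3).resolve_left hc

theorem Ex.join (H : Ex R p l) {i i' : ι} {j k : κ} {v0 v1 v2 w0 w1 w2 m0 m1 m2 g : ℝ}
    (hi : Pt p i v0 v1 v2) (hi' : Pt p i' w0 w1 w2) (hk : R i k) (hk' : ¬ R i' k)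
    (h : R i j) (h' : R i' j)
    (e0 : v1 * w2 - v2 * w1 = g * m0) (e1 : v2 * w0 - v0 * w2 = g * m1)
    (e2 : v0 * w1 - v1 * w0 = g * m2) : Pt l j m0 m1 m2 := by
  obtain ⟨s, _, a0, a1, a2⟩ := hi
  obtain ⟨t, _, b0, b1, b2⟩ := hi'
  exact par _ _ _ _ _ _ _ _ _ v0 v1 v2 w0 w1 w2 m0 m1 m2 s t g a0 a1 a2 b0 b1 b2
    ((H.inc i j).mpr h) ((H.inc i' j).mpr h') (H.lne j) (H.pp hk hk') e0 e1 e2

theorem Ex.closing (H : Ex R p l) {i : ι} {j : κ} {v0 v1 v2 m0 m1 m2 : ℝ}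
    (hi : Pt p i v0 v1 v2) (hj : Pt l j m0 m1 m2) (h : R i j) :
    v0 * m0 + v1 * m1 + v2 * m2 = 0 := by
  obtain ⟨s, hs, a0, a1, a2⟩ := hi
  obtain ⟨t, ht, b0, b1, b2⟩ := hj
  have c := (H.inc i j).mpr h
  rw [a0, a1, a2, b0, b1, b2] at c
  have : (s * t) * (v0 * m0 + v1 * m1 + v2 * m2) = 0 := by linarith
  exact (mul_eq_zero.mp this).resolve_left (mul_ne_zero hs ht)

theorem Ex.nonclosing (H : Ex R p l) {i : ι} {j : κ} {v0 v1 v2 m0 m1 m2 : ℝ}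
    (hi : Pt p i v0 v1 v2) (hj : Pt l j m0 m1 m2) (h : ¬ R i j) :
    v0 * m0 + v1 * m1 + v2 * m2 ≠ 0 := by
  obtain ⟨s, hs, a0, a1, a2⟩ := hi
  obtain ⟨t, ht, b0, b1, b2⟩ := hj
  intro h0
  apply h
  rw [← H.inc, a0, a1, a2, b0, b1, b2]
  have : s * v0 * (t * m0) + s * v1 * (t * m1) + s * v2 * (t * m2)
      = (s * t) * (v0 * m0 + v1 * m1 + v2 * m2) := by ring
  rw [this, h0, mul_zero]

theorem Pt.rescale {i : ι} {v0 v1 v2 n0 n1 n2 : ℝ} (hi : Pt p i v0 v1 v2) (k : ℝ) (hk : k ≠ 0)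
    (e0 : v0 = k * n0) (e1 : v1 = k * n1) (e2 : v2 = k * n2) : Pt p i n0 n1 n2 := by
  obtain ⟨s, hs, a0, a1, a2⟩ := hi
  exact ⟨s * k, mul_ne_zero hs hk, by rw [a0, e0]; ring, by rw [a1, e1]; ring,
    by rw [a2, e2]; ring⟩

theorem Pt.self (i : ι) : Pt p i (p i 0) (p i 1) (p i 2) :=
  ⟨1, one_ne_zero, by ring, by ring, by ring⟩

end Pool.Agent.KS6_77.RC
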